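import Mathlib

/-!
Bivariate polynomials: degrees, pseudo-division, primitive parts, substitution.
-/

set_option autoImplicit false
set_option linter.unusedSectionVars false

namespace Pool.Agent.R829.BG

open Polynomial

noncomputable section

variable {L : Type} [Field L]

/-- the degree in the first variable is at most `A` -/
def XD (A : ℕ) (G : L[X][X]) : Prop := ∀ n, (G.coeff n).natDegree ≤ A

lemma XD.mono {A B : ℕ} {G : L[X][X]} (h : XD A G) (hAB : A ≤ B) : XD B G :=
  fun n => (h n).trans hAB

lemma XD.zero (A : ℕ) : XD A (0 : L[X][X]) := fun n => by simp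

lemma XD.add {A : ℕ} {G H : L[X][X]} (hG : XD A G) (hH : XD A H) : XD A (G + H) := fun n => by
  rw [coeff_add]
  exact (natDegree_add_le _ _).trans (max_le (hG n) (hH n))

lemma XD.sub {A : ℕ} {G H : L[X][X]} (hG : XD A G) (hH : XD A H) : XD A (G - H) := fun n => by
  rw [coeff_sub]
  exact (natDegree_sub_le _ _).trans (max_le (hG n) (hH n))

lemma XD.sum {ι : Type*} (s : Finset ι) {A : ℕ} {G : ι → L[X][X]} (h : ∀ i ∈ s, XD A (G i)) :
    XD A (∑ i ∈ s, G i) := by
  classical
  induction s using Finset.induction_on with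
  | empty => simpa using XD.zero A
  | insert i s hi ih =>
    rw [Finset.sum_insert hi]
    exact (h i (Finset.mem_insert_self _ _)).add (ih fun j hj => h j (Finset.mem_insert_of_mem hj))

lemma XD.mul {A B : ℕ} {G H : L[X][X]} (hG : XD A G) (hH : XD B H) : XD (A + B) (G * H) := by
  intro n
  rw [coeff_mul]
  refine natDegree_sum_le_of_forall_le _ _ fun ij _ => ?_
  exact natDegree_mul_le.trans (Nat.add_le_add (hG _) (hH _))

lemma XD.C {A : ℕ} {f : L[X]} (h : f.natDegree ≤ A) : XD A (Polynomial.C f : L[X][X]) := by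
  intro n
  rw [coeff_C]
  split_ifs
  · exact h
  · simp

lemma XD.mapC (f : L[X]) : XD 0 (f.map Polynomial.C : L[X][X]) := by
  intro n
  rw [coeff_map]
  simp

lemma XD.one : XD 0 (1 : L[X][X]) := by
  rw [← Polynomial.C_1]
  exact XD.C (by simp)

lemma XD.pow0 {G : L[X][X]} (h : XD 0 G) (n : ℕ) : XD 0 (G ^ n) := by
  induction n with
  | zero => rw [pow_zero]; exact XD.one
  | succ n ih =>
    rw [pow_succ]
    exact ih.mul h

lemma XD.X : XD 0 (X : L[X][X]) := by
  intro n
  rw [coeff_X]
  split_ifs <;> simp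

lemma coeff_swap (G : L[X][X]) (i j : ℕ) :
    ((Bivariate.swap G).coeff i).coeff j = (G.coeff j).coeff i := by
  induction G using Polynomial.induction_on' with
  | add p q hp hq => simp only [map_add, coeff_add, hp, hq]
  | monomial n f =>
    induction f using Polynomial.induction_on' with
    | add p q hp hq => simp only [map_add, coeff_add, hp, hq]
    | monomial m r =>
      rw [Bivariate.swap_monomial_monomial]
      simp only [coeff_monomial]
      by_cases h1 : m = i <;> by_cases h2 : n = j <;> simp [h1, h2, coeff_monomial]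

lemma XD_iff {A : ℕ} {G : L[X][X]} : XD A G ↔ (Bivariate.swap G).natDegree ≤ A := by
  constructor
  · intro h
    rw [natDegree_le_iff_coeff_eq_zero]
    intro i hi
    ext j
    rw [coeff_swap, coeff_zero]
    exact coeff_eq_zero_of_natDegree_lt (lt_of_le_of_lt (h j) hi)
  · intro h n
    rw [natDegree_le_iff_coeff_eq_zero]
    intro i hi
    have h1 := coeff_eq_zero_of_natDegree_lt (lt_of_le_of_lt h hi)
    rw [← coeff_swap, h1, coeff_zero]

/-- degree in the first variable -/
def xd (G : L[X][X]) : ℕ := (Bivariate.swap G).natDegree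

lemma xd_mul {G H : L[X][X]} (hG : G ≠ 0) (hH : H ≠ 0) : xd (G * H) = xd G + xd H := by
  unfold xd
  rw [map_mul, natDegree_mul]
  · rwa [Ne, EmbeddingLike.map_eq_zero_iff]
  · rwa [Ne, EmbeddingLike.map_eq_zero_iff]

lemma XD.of_mul {A : ℕ} {G H : L[X][X]} (hG : G ≠ 0) (hH : H ≠ 0) (h : XD A (G * H)) :
    XD A G ∧ XD A H := by
  rw [XD_iff] at h
  have h1 := xd_mul hG hH
  unfold xd at h1
  rw [XD_iff, XD_iff]
  omega

/-- pseudo-division -/
lemma pseudo {G : L[X][X]} {b : ℕ} (hb : 1 ≤ b) (hG : G.natDegree = b) {A : ℕ} (hA : XD A G)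
    (n : ℕ) : ∀ (Φ : L[X][X]) (B : ℕ), Φ.natDegree < n + b → XD B Φ →
      ∃ (c : L[X]) (Q R : L[X][X]), c ≠ 0 ∧ C c * Φ = Q * G + R ∧ R.natDegree < b ∧
        XD (B + n * A) R := by
  induction n with
  | zero =>
    intro Φ B hΦ hB
    refine ⟨1, 0, Φ, one_ne_zero, by simp, by omega, ?_⟩
    rw [zero_mul, add_zero]
    exact hB
  | succ n ih =>
    intro Φ B hΦ hB
    by_cases hlt : Φ.natDegree < n + b
    · obtain ⟨c, Q, R, h1, h2, h3, h4⟩ := ih Φ B hlt hB
      exact ⟨c, Q, R, h1, h2, h3, h4.mono (by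
        have : n * A ≤ (n + 1) * A := Nat.mul_le_mul_right _ (by omega)
        omega)⟩
    · have hdeg : Φ.natDegree = n + b := by omega
      have hG0 : G ≠ 0 := by
        rintro rfl
        rw [natDegree_zero] at hG
        omega
      set l := G.leadingCoeff with hl
      have hl0 : l ≠ 0 := leadingCoeff_ne_zero.mpr hG0
      set Φ' : L[X][X] := C l * Φ - C (Φ.leadingCoeff) * X ^ n * G with hΦ'
      have hX' : XD (A + B) Φ' := by
        have h1 : XD (A + B) (C l * Φ) := (XD.C (hA _)).mul hB
        have h2 : XD (A + B) (C (Φ.leadingCoeff) * X ^ n * G) := by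
          have h3 : XD (B + 0) (C (Φ.leadingCoeff) * X ^ n : L[X][X]) :=
            (XD.C (hB _)).mul (XD.X.pow0 n)
          have h4 := h3.mul hA
          exact h4.mono (by omega)
        exact h1.sub h2
      have hle : Φ'.natDegree ≤ n + b := by
        refine (natDegree_sub_le _ _).trans (max_le ?_ ?_)
        · refine natDegree_mul_le.trans ?_
          rw [natDegree_C, hdeg, zero_add]
        · refine natDegree_mul_le.trans ?_
          rw [hG]
          have : (C Φ.leadingCoeff * X ^ n : L[X][X]).natDegree ≤ n :=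
            natDegree_C_mul_X_pow_le _ _
          omega
      have hco : Φ'.coeff (n + b) = 0 := by
        rw [hΦ', coeff_sub, coeff_C_mul, mul_assoc, coeff_C_mul, coeff_X_pow_mul']
        rw [if_pos (by omega), Nat.add_sub_cancel_left]
        have h1 : Φ.coeff (n + b) = Φ.leadingCoeff := by rw [leadingCoeff, hdeg]
        have h2 : G.coeff b = l := by rw [hl, leadingCoeff, hG]
        rw [h1, h2]
        ring
      have hlt' : Φ'.natDegree < n + b := by
        rcases Nat.lt_or_ge Φ'.natDegree (n + b) with h | h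
        · exact h
        · exfalso
          have h1 : Φ'.natDegree = n + b := le_antisymm hle h
          have h2 : Φ'.leadingCoeff = 0 := by rw [leadingCoeff, h1, hco]
          rw [leadingCoeff_eq_zero] at h2
          rw [h2, natDegree_zero] at h1
          omega
      obtain ⟨c, Q, R, h1, h2, h3, h4⟩ := ih Φ' (A + B) hlt' hX'
      refine ⟨c * l, Q + C (c * Φ.leadingCoeff) * X ^ n, R, mul_ne_zero h1 hl0, ?_, h3,
        h4.mono (by
          have : (n + 1) * A = n * A + A := by ring
          omega)⟩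
      have h5 : C (c * l) * Φ = C c * Φ' + C (c * Φ.leadingCoeff) * X ^ n * G := by
        rw [hΦ', C_mul, C_mul]
        ring
      rw [h5, h2]
      ring

/-- a fixed choice of gcd's -/
@[instance_reducible]
def gcdInst : StrongNormalizedGCDMonoid L[X] :=
  let _ : StrongNormalizationMonoid L[X] := Classical.arbitrary _
  UniqueFactorizationMonoid.toStrongNormalizedGCDMonoid L[X]

/-- primitive parts -/
lemma exists_prim {G : L[X][X]} (hG : G ≠ 0) : ∃ (c : L[X]) (G₀ : L[X][X]), c ≠ 0 ∧
    G = C c * G₀ ∧ G₀.IsPrimitive ∧ G₀ ≠ 0 ∧ G₀.natDegree = G.natDegree := by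
  let _ : StrongNormalizedGCDMonoid L[X] := gcdInst
  refine ⟨G.content, G.primPart, ?_, G.eq_C_content_mul_primPart, G.isPrimitive_primPart, ?_,
    G.natDegree_primPart⟩
  · rwa [Ne, content_eq_zero_iff]
  · exact G.isPrimitive_primPart.ne_zero

lemma dvd_of_C_mul {G Φ : L[X][X]} (hG : G.IsPrimitive) {c : L[X]} (hc : c ≠ 0)
    (h : G ∣ C c * Φ) : G ∣ Φ := by
  let _ : StrongNormalizedGCDMonoid L[X] := gcdInst
  rcases eq_or_ne Φ 0 with rfl | hΦ
  · exact dvd_zero _
  have hne : C c * Φ ≠ 0 := mul_ne_zero (by rwa [Ne, C_eq_zero]) hΦ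
  rw [← hG.dvd_primPart_iff_dvd hne, primPart_mul hne] at h
  have h1 : IsUnit (C c : L[X][X]).primPart := isUnit_primPart_C c
  have h2 : G ∣ Φ.primPart := (h1.dvd_mul_left).mp h
  rwa [hG.dvd_primPart_iff_dvd hΦ] at h2

end

end Pool.Agent.R829.BG
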