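import Mathlib
import Pool.Agent.R829.BG.Alg

/-!
Algebraic relations on long windows of an orbit of pairs of points.
-/

set_option autoImplicit false
set_option linter.unusedSectionVars false

namespace Pool.Agent.R829.BG

open Polynomial

noncomputable section

variable {L : Type} [Field L]

/-- substitution of a fraction in both variables -/
def subs (f g : L[X]) (A b : ℕ) (G : L[X][X]) : L[X][X] :=
  ∑ n ∈ Finset.range (b + 1), C (∑ m ∈ Finset.range (A + 1),
    C ((G.coeff n).coeff m) * (f ^ m * g ^ (A - m))) *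
      ((f.map C) ^ n * (g.map C) ^ (b - n))

lemma evalEval_eq {A b : ℕ} {G : L[X][X]} (hb : G.natDegree ≤ b) (hA : XD A G) (x y : L) :
    G.evalEval x y = ∑ n ∈ Finset.range (b + 1), (∑ m ∈ Finset.range (A + 1),
      (G.coeff n).coeff m * x ^ m) * y ^ n := by
  rw [evalEval, eval_eq_sum_range' (Nat.lt_succ_of_le hb), eval_finsetSum]
  refine Finset.sum_congr rfl fun n _ => ?_
  rw [eval_mul, eval_pow, eval_C, eval_eq_sum_range' (Nat.lt_succ_of_le (hA n))]

lemma eval_subs {f g : L[X]} {A b : ℕ} {G : L[X][X]} (hb : G.natDegree ≤ b) (hA : XD A G)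
    {x y : L} (hx : g.eval x ≠ 0) (hy : g.eval y ≠ 0) :
    (subs f g A b G).evalEval x y = (g.eval x) ^ A * (g.eval y) ^ b *
      G.evalEval (f.eval x / g.eval x) (f.eval y / g.eval y) := by
  rw [evalEval_eq hb hA, subs, evalEval_finsetSum, Finset.mul_sum]
  refine Finset.sum_congr rfl fun n hn => ?_
  have hn' : n ≤ b := Nat.lt_succ_iff.mp (Finset.mem_range.mp hn)
  rw [evalEval_mul, evalEval_C, evalEval_mul, evalEval_pow, evalEval_pow, evalEval_map_C,
    evalEval_map_C, eval_finsetSum, Finset.sum_mul, Finset.sum_mul, Finset.mul_sum]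
  refine Finset.sum_congr rfl fun m hm => ?_
  have hm' : m ≤ A := Nat.lt_succ_iff.mp (Finset.mem_range.mp hm)
  rw [eval_mul, eval_mul, eval_pow, eval_pow, eval_C, div_pow, div_pow]
  have h1 : (g.eval x) ^ A = (g.eval x) ^ m * (g.eval x) ^ (A - m) := by
    rw [← pow_add, Nat.add_sub_cancel' hm']
  have h2 : (g.eval y) ^ b = (g.eval y) ^ n * (g.eval y) ^ (b - n) := by
    rw [← pow_add, Nat.add_sub_cancel' hn']
  rw [h1, h2]
  field_simp

lemma natDegree_subs {f g : L[X]} {D : ℕ} (hf : f.natDegree ≤ D) (hg : g.natDegree ≤ D)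
    (A b : ℕ) (G : L[X][X]) : (subs f g A b G).natDegree ≤ b * D := by
  refine natDegree_sum_le_of_forall_le _ _ fun n hn => ?_
  have hn' : n ≤ b := Nat.lt_succ_iff.mp (Finset.mem_range.mp hn)
  refine natDegree_mul_le.trans ?_
  rw [natDegree_C, zero_add]
  refine natDegree_mul_le.trans ?_
  have h1 : ((f.map C) ^ n : L[X][X]).natDegree ≤ n * D :=
    natDegree_pow_le.trans (Nat.mul_le_mul_left _ ((natDegree_map_le).trans hf))
  have h2 : ((g.map C) ^ (b - n) : L[X][X]).natDegree ≤ (b - n) * D :=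
    natDegree_pow_le.trans (Nat.mul_le_mul_left _ ((natDegree_map_le).trans hg))
  calc _ ≤ n * D + (b - n) * D := Nat.add_le_add h1 h2
    _ = b * D := by rw [← add_mul, Nat.add_sub_cancel' hn']

lemma XD_subs {f g : L[X]} {D : ℕ} (hf : f.natDegree ≤ D) (hg : g.natDegree ≤ D)
    (A b : ℕ) (G : L[X][X]) : XD (A * D) (subs f g A b G) := by
  refine XD.sum _ fun n _ => ?_
  have h1 : XD (A * D) (C (∑ m ∈ Finset.range (A + 1),
      C ((G.coeff n).coeff m) * (f ^ m * g ^ (A - m))) : L[X][X]) := by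
    apply XD.C
    refine natDegree_sum_le_of_forall_le _ _ fun m hm => ?_
    have hm' : m ≤ A := Nat.lt_succ_iff.mp (Finset.mem_range.mp hm)
    refine natDegree_mul_le.trans ?_
    rw [natDegree_C, zero_add]
    refine natDegree_mul_le.trans ?_
    have h1 : (f ^ m).natDegree ≤ m * D :=
      natDegree_pow_le.trans (Nat.mul_le_mul_left _ hf)
    have h2 : (g ^ (A - m)).natDegree ≤ (A - m) * D :=
      natDegree_pow_le.trans (Nat.mul_le_mul_left _ hg)
    calc _ ≤ m * D + (A - m) * D := Nat.add_le_add h1 h2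
      _ = A * D := by rw [← add_mul, Nat.add_sub_cancel' hm']
  have h2 : XD 0 ((f.map C) ^ n * (g.map C) ^ (b - n) : L[X][X]) := by
    have := ((XD.mapC f).pow0 n).mul ((XD.mapC g).pow0 (b - n))
    exact this
  exact h1.mul h2

/-- the data: affine coordinates of the pairs of points; `J` is the set of indices for which the
points are finite -/
structure Orb (D : ℕ) (x y : ℕ → L) (J : Set ℕ) : Prop where
  inj : Set.InjOn x J
  miss : ∀ i j, i ∉ J → j ∉ J → i = j
  step : ∀ j, j = 1 ∨ j = 2 → ∃ f g : L[X], f.natDegree ≤ D ∧ g.natDegree ≤ D ∧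
    ∀ i ∈ J, i + j ∈ J → g.eval (x i) ≠ 0 ∧ g.eval (y i) ≠ 0 ∧
      x (i + j) = f.eval (x i) / g.eval (x i) ∧ y (i + j) = f.eval (y i) / g.eval (y i)

variable {D : ℕ} {x y : ℕ → L} {J : Set ℕ}

/-- relations on a tail -/
def Tail (x y : ℕ → L) (J : Set ℕ) (G : L[X][X]) : Prop :=
  ∃ s, ∀ i ∈ J, s ≤ i → G.evalEval (x i) (y i) = 0

/-- minimal relations on a tail -/
structure TMin (x y : ℕ → L) (J : Set ℕ) (T : L[X][X]) : Prop where
  prim : T.IsPrimitive
  tail : Tail x y J T
  ne : T ≠ 0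
  min : ∀ G : L[X][X], G ≠ 0 → Tail x y J G → T.natDegree ≤ G.natDegree

lemma Orb.finite_roots (h : Orb D x y J) {c : L[X]} (hc : c ≠ 0) :
    {i | i ∈ J ∧ c.eval (x i) = 0}.Finite := by
  classical
  apply Set.Finite.of_finite_image (f := x)
  · refine (c.roots.toFinset.finite_toSet).subset ?_
    rintro _ ⟨i, ⟨_, hi⟩, rfl⟩
    rw [Finset.mem_coe, Multiset.mem_toFinset, mem_roots hc]
    exact hi
  · intro i hi j hj hij
    exact h.inj hi.1 hj.1 hij

lemma Orb.card_roots (h : Orb D x y J) {c : L[X]} (hc : c ≠ 0) {A : ℕ} (hA : c.natDegree ≤ A)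
    (E : Finset ℕ) (hE : ∀ i ∈ E, i ∈ J ∧ c.eval (x i) = 0) : E.card ≤ A := by
  classical
  have h1 : E.card ≤ c.roots.toFinset.card := by
    apply Finset.card_le_card_of_injOn x
    · intro i hi
      rw [Finset.mem_coe, Multiset.mem_toFinset, mem_roots hc]
      exact (hE i hi).2
    · intro i hi j hj hij
      exact h.inj (hE i hi).1 (hE j hj).1 hij
  exact h1.trans ((Multiset.toFinset_card_le _).trans ((card_roots' _).trans hA))

lemma Orb.exists_bound (h : Orb D x y J) {c : L[X]} (hc : c ≠ 0) :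
    ∃ s, ∀ i ∈ J, s ≤ i → c.eval (x i) ≠ 0 := by
  obtain ⟨s, hs⟩ := (h.finite_roots hc).bddAbove
  refine ⟨s + 1, fun i hi hsi h0 => ?_⟩
  have := hs ⟨hi, h0⟩
  omega

lemma Orb.exists_mem (h : Orb D x y J) (s : ℕ) : ∃ i ∈ J, s ≤ i := by
  by_contra hcon
  push Not at hcon
  have h1 : s ∉ J := fun hs => by
    have := hcon s hs
    omega
  have h2 : s + 1 ∉ J := fun hs => by
    have := hcon (s + 1) hs
    omega
  have := h.miss _ _ h1 h2
  omega

/-- extension to the whole future -/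
lemma Orb.prop (h : Orb D x y J) {V : ℕ → Prop} (h1 : ∀ i ∈ J, i + 1 ∈ J → V i → V (i + 1))
    (h2 : ∀ i ∈ J, i + 2 ∈ J → V i → V (i + 2)) {i : ℕ} (hi : i ∈ J) (hV : V i) (k : ℕ) :
    i + k ∈ J → V (i + k) := by
  induction k using Nat.strong_induction_on with
  | _ k ih =>
    intro hk
    rcases k with _ | _ | k
    · exact hV
    · exact h1 i hi hk hV
    · by_cases hm : i + (k + 1) ∈ J
      · exact h1 _ hm hk (ih (k + 1) (by omega) hm)
      · have hm' : i + k ∈ J := by
          by_contra hcon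
          have := h.miss _ _ hm hcon
          omega
        exact h2 _ hm' hk (ih k (by omega) hm')

lemma Tail.of_C_mul (h : Orb D x y J) {c : L[X]} (hc : c ≠ 0) {T : L[X][X]}
    (hT : Tail x y J (C c * T)) : Tail x y J T := by
  obtain ⟨s, hs⟩ := hT
  obtain ⟨s', hs'⟩ := h.exists_bound hc
  refine ⟨max s s', fun i hi hsi => ?_⟩
  have h1 := hs i hi ((le_max_left _ _).trans hsi)
  rw [evalEval_mul, evalEval_C] at h1
  exact (mul_eq_zero.mp h1).resolve_left (hs' i hi ((le_max_right _ _).trans hsi))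

lemma exists_tmin (h : Orb D x y J) {G : L[X][X]} (hG : G ≠ 0) (hT : Tail x y J G) :
    ∃ T, TMin x y J T := by
  classical
  have hex : ∃ n, ∃ G : L[X][X], G ≠ 0 ∧ Tail x y J G ∧ G.natDegree = n := ⟨_, G, hG, hT, rfl⟩
  obtain ⟨G', h1, h2, h3⟩ := Nat.find_spec hex
  obtain ⟨c, T, hc, hGT, hp, hT0, hdeg⟩ := exists_prim h1
  refine ⟨T, hp, ?_, hT0, fun H hH hHt => ?_⟩
  · rw [hGT] at h2
    exact Tail.of_C_mul h hc h2
  · rw [hdeg, h3]
    exact Nat.find_min' hex ⟨H, hH, hHt, rfl⟩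

lemma TMin.one_le (h : Orb D x y J) {T : L[X][X]} (hT : TMin x y J T) : 1 ≤ T.natDegree := by
  by_contra hcon
  have h0 : T.natDegree = 0 := by omega
  obtain ⟨t, ht⟩ := natDegree_eq_zero.mp h0
  have ht0 : t ≠ 0 := by
    rintro rfl
    exact hT.ne (by rw [← ht, C_0])
  obtain ⟨s, hs⟩ := hT.tail
  obtain ⟨s', hs'⟩ := h.exists_bound ht0
  obtain ⟨i, hi, hsi⟩ := h.exists_mem (max s s')
  have h1 := hs i hi ((le_max_left _ _).trans hsi)
  rw [← ht, evalEval_C] at h1
  exact hs' i hi ((le_max_right _ _).trans hsi) h1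

lemma TMin.dvd (h : Orb D x y J) {T : L[X][X]} (hT : TMin x y J T) {Φ : L[X][X]}
    (hΦ : Tail x y J Φ) : T ∣ Φ := by
  obtain ⟨A, hA⟩ : ∃ A, XD A T := ⟨_, XD_iff.mpr le_rfl⟩
  obtain ⟨B, hB⟩ : ∃ B, XD B Φ := ⟨_, XD_iff.mpr le_rfl⟩
  obtain ⟨c, Q, R, hc, hcΦ, hR, -⟩ := pseudo (hT.one_le h) rfl hA (Φ.natDegree + 1) Φ B
    (by omega) hB
  have hRt : Tail x y J R := by
    obtain ⟨s, hs⟩ := hΦ
    obtain ⟨s', hs'⟩ := hT.tail
    refine ⟨max s s', fun i hi hsi => ?_⟩
    have h1 := hs i hi ((le_max_left _ _).trans hsi)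
    have h2 := hs' i hi ((le_max_right _ _).trans hsi)
    have h3 := congrArg (evalEval (x i) (y i)) hcΦ
    rw [evalEval_mul, h1, mul_zero, evalEval_add, evalEval_mul, h2, mul_zero, zero_add] at h3
    exact h3.symm
  have hR0 : R = 0 := by
    by_contra hR0
    have := hT.min R hR0 hRt
    omega
  rw [hR0, add_zero] at hcΦ
  exact dvd_of_C_mul hT.prim hc ⟨Q, by rw [hcΦ, mul_comm]⟩

/-- vanishing is preserved, if the relation divides its transforms -/
lemma step_of_dvd {j : ℕ} {f g : L[X]} (hfg : ∀ i ∈ J, i + j ∈ J → g.eval (x i) ≠ 0 ∧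
      g.eval (y i) ≠ 0 ∧ x (i + j) = f.eval (x i) / g.eval (x i) ∧
      y (i + j) = f.eval (y i) / g.eval (y i)) {A b : ℕ} {G : L[X][X]} (hb : G.natDegree ≤ b)
    (hA : XD A G) (hdvd : G ∣ subs f g A b G) {i : ℕ} (hi : i ∈ J) (hij : i + j ∈ J)
    (h0 : G.evalEval (x i) (y i) = 0) : G.evalEval (x (i + j)) (y (i + j)) = 0 := by
  obtain ⟨Q, hQ⟩ := hdvd
  obtain ⟨h1, h2, h3, h4⟩ := hfg i hi hij
  have h5 := eval_subs (f := f) hb hA h1 h2
  rw [hQ, evalEval_mul, h0, zero_mul, ← h3, ← h4] at h5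
  have h6 : (g.eval (x i)) ^ A * (g.eval (y i)) ^ b ≠ 0 :=
    mul_ne_zero (pow_ne_zero _ h1) (pow_ne_zero _ h2)
  exact (mul_eq_zero.mp h5.symm).resolve_left h6

lemma eval_subs_zero {j : ℕ} {f g : L[X]} (hfg : ∀ i ∈ J, i + j ∈ J → g.eval (x i) ≠ 0 ∧
      g.eval (y i) ≠ 0 ∧ x (i + j) = f.eval (x i) / g.eval (x i) ∧
      y (i + j) = f.eval (y i) / g.eval (y i)) {A b : ℕ} {G : L[X][X]} (hb : G.natDegree ≤ b)
    (hA : XD A G) {i : ℕ} (hi : i ∈ J) (hij : i + j ∈ J)
    (h0 : G.evalEval (x (i + j)) (y (i + j)) = 0) :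
    (subs f g A b G).evalEval (x i) (y i) = 0 := by
  obtain ⟨h1, h2, h3, h4⟩ := hfg i hi hij
  rw [eval_subs (f := f) hb hA h1 h2, ← h3, ← h4, h0, mul_zero]

/-- exceptional points can be removed -/
lemma fix {b A' : ℕ} {s m : ℕ}
    (hno : ∀ R : L[X][X], R.natDegree ≤ b → XD A' R →
      (∀ i ∈ J, s ≤ i → i < s + m → R.evalEval (x i) (y i) = 0) → R = 0)
    {R : L[X][X]} (hR : R.natDegree ≤ b) {B k : ℕ} (hB : XD B R) (E : Finset ℕ)
    (hE : E.card ≤ k) (hBk : B + k ≤ A')
    (hv : ∀ i ∈ J, s ≤ i → i < s + m → i ∉ E → R.evalEval (x i) (y i) = 0) : R = 0 := by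
  set P : L[X] := ∏ i ∈ E, (X - C (x i)) with hP
  have hP0 : P ≠ 0 := Finset.prod_ne_zero_iff.mpr fun i _ => X_sub_C_ne_zero _
  have hPd : P.natDegree ≤ k := by
    rw [hP, natDegree_prod_of_monic _ _ fun i _ => monic_X_sub_C _]
    simpa using hE
  have h1 : R * C P = 0 := by
    apply hno
    · refine natDegree_mul_le.trans ?_
      rw [natDegree_C, add_zero]
      exact hR
    · exact (hB.mul (XD.C hPd)).mono hBk
    · intro i hi hsi him
      rw [evalEval_mul, evalEval_C]
      by_cases hiE : i ∈ E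
      · have : P.eval (x i) = 0 := by
          rw [hP, eval_prod]
          exact Finset.prod_eq_zero hiE (by simp)
        rw [this, mul_zero]
      · rw [hv i hi hsi him hiE, zero_mul]
  exact (mul_eq_zero.mp h1).resolve_right fun h => hP0 (C_eq_zero.mp h)

/-- the number of indices excluded by a root of `c` after a shift -/
lemma exists_exc (h : Orb D x y J) {c : L[X]} (hc : c ≠ 0) {A : ℕ} (hA : c.natDegree ≤ A)
    (s m j : ℕ) : ∃ E : Finset ℕ, E.card ≤ 2 * A + 1 ∧ ∀ i ∈ J, s ≤ i → i < s + m → i ∉ E →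
      i + j ∈ J ∧ c.eval (x i) ≠ 0 ∧ c.eval (x (i + j)) ≠ 0 := by
  classical
  set E₁ := (Finset.Ico s (s + m)).filter fun i => i ∈ J ∧ c.eval (x i) = 0 with hE₁
  set E₂ := (Finset.Ico s (s + m)).filter fun i => i + j ∈ J ∧ c.eval (x (i + j)) = 0 with hE₂
  set E₃ := (Finset.Ico s (s + m)).filter fun i => i + j ∉ J with hE₃
  refine ⟨E₁ ∪ E₂ ∪ E₃, ?_, ?_⟩
  · have h1 : E₁.card ≤ A := h.card_roots hc hA E₁ fun i hi => (Finset.mem_filter.mp hi).2
    have h2 : E₂.card ≤ A := by
      have h3 : (E₂.image fun i => i + j).card = E₂.card :=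
        Finset.card_image_of_injective _ fun a b hab => by simpa using hab
      rw [← h3]
      apply h.card_roots hc hA
      intro i hi
      obtain ⟨i', hi', rfl⟩ := Finset.mem_image.mp hi
      exact (Finset.mem_filter.mp hi').2
    have h3 : E₃.card ≤ 1 := by
      rw [Finset.card_le_one]
      intro a ha b hb
      have := h.miss _ _ (Finset.mem_filter.mp ha).2 (Finset.mem_filter.mp hb).2
      omega
    have h4 := Finset.card_union_le (E₁ ∪ E₂) E₃
    have h5 := Finset.card_union_le E₁ E₂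
    omega
  · intro i hi hsi him hE
    rw [Finset.mem_union, Finset.mem_union, not_or, not_or] at hE
    obtain ⟨⟨h1, h2⟩, h3⟩ := hE
    have hmem : i ∈ Finset.Ico s (s + m) := Finset.mem_Ico.mpr ⟨hsi, him⟩
    have h4 : i + j ∈ J := by
      by_contra hcon
      exact h3 (Finset.mem_filter.mpr ⟨hmem, hcon⟩)
    refine ⟨h4, fun h0 => h1 (Finset.mem_filter.mpr ⟨hmem, hi, h0⟩), fun h0 =>
      h2 (Finset.mem_filter.mpr ⟨hmem, h4, h0⟩)⟩

/-- **relations on long windows**: they can be replaced by relations of small degree in both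
variables on a large part of the window -/
theorem window (D b : ℕ) : ∀ A : ℕ, ∃ M c : ℕ, ∀ (L : Type) [Field L] (x y : ℕ → L) (J : Set ℕ),
    Orb D x y J → (∀ T, TMin x y J T → XD T.natDegree T) →
    ∀ (s m : ℕ), M ≤ m → ∀ G : L[X][X], G ≠ 0 → G.natDegree ≤ b → XD A G →
      (∀ i ∈ J, s ≤ i → i < s + m → G.evalEval (x i) (y i) = 0) →
      ∃ (s' m' : ℕ) (G' : L[X][X]), s ≤ s' ∧ s' + m' ≤ s + m ∧ m ≤ c * m' ∧ G' ≠ 0 ∧
        G'.natDegree ≤ b ∧ XD b G' ∧
        ∀ i ∈ J, s' ≤ i → i < s' + m' → G'.evalEval (x i) (y i) = 0 := by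
  induction b with
  | zero =>
    intro A
    refine ⟨A + 2, 0, fun L _ x y J h hII s m hm G hG hb hA hv => ?_⟩
    exfalso
    classical
    obtain ⟨t, ht⟩ := natDegree_eq_zero.mp (Nat.le_zero.mp hb)
    have ht0 : t ≠ 0 := by
      rintro rfl
      exact hG (by rw [← ht, C_0])
    have htA : t.natDegree ≤ A := by
      have := hA 0
      rwa [← ht, coeff_C_zero] at this
    set E := (Finset.Ico s (s + m)).filter fun i => i ∈ J with hE
    have h1 : E.card ≤ A := by
      apply h.card_roots ht0 htA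
      intro i hi
      obtain ⟨h2, h3⟩ := Finset.mem_filter.mp hi
      rw [Finset.mem_Ico] at h2
      have h4 := hv i h3 h2.1 h2.2
      rw [← ht, evalEval_C] at h4
      exact ⟨h3, h4⟩
    have h2 : ((Finset.Ico s (s + m)).filter fun i => i ∉ J).card ≤ 1 := by
      rw [Finset.card_le_one]
      intro a ha b hb
      exact h.miss _ _ (Finset.mem_filter.mp ha).2 (Finset.mem_filter.mp hb).2
    have h3 := Finset.card_filter_add_card_filter_not (s := Finset.Ico s (s + m))
      (fun i => i ∈ J)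
    rw [Nat.card_Ico, Nat.add_sub_cancel_left] at h3
    have h4 : E.card + ((Finset.Ico s (s + m)).filter fun i => i ∉ J).card = m := h3
    omega
  | succ b ih =>
    intro A
    obtain ⟨M₁, c₁, hIH⟩ := ih (A * D + ((b + 1) * D + 1) * A + 2 * A + 1 + A + 2)
    set A' := A * D + ((b + 1) * D + 1) * A + 2 * A + 1 + A + 2 with hA'
    refine ⟨2 * M₁ + 2 * A + 20, 4 * c₁ + 4, ?_⟩
    intro L _ x y J h hII s m hm G hG hb hA hv
    classical
    by_cases hcase : ∀ R : L[X][X], R.natDegree ≤ b → XD A' R →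
        (∀ i ∈ J, s ≤ i → i < s + m / 2 → R.evalEval (x i) (y i) = 0) → R = 0
    · -- no relation of smaller degree on the first half
      have hAA' : A ≤ A' := by omega
      have hGb : G.natDegree = b + 1 := by
        by_contra hne
        apply hG
        exact hcase G (by omega) (hA.mono hAA') fun i hi h1 h2 => hv i hi h1 (by omega)
      obtain ⟨c₀, G₀, hc₀, hGG₀, hprim, hG₀, hdeg⟩ := exists_prim hG
      rw [hGb] at hdeg
      have hXD : XD A (C c₀ : L[X][X]) ∧ XD A G₀ :=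
        XD.of_mul (by rwa [Ne, C_eq_zero]) hG₀ (hGG₀ ▸ hA)
      have hc₀A : c₀.natDegree ≤ A := by
        have := hXD.1 0
        rwa [coeff_C_zero] at this
      have hv₀ : ∀ i ∈ J, s ≤ i → i < s + m → c₀.eval (x i) ≠ 0 →
          G₀.evalEval (x i) (y i) = 0 := by
        intro i hi h1 h2 h3
        have h4 := hv i hi h1 h2
        rw [hGG₀, evalEval_mul, evalEval_C] at h4
        exact (mul_eq_zero.mp h4).resolve_left h3
      -- divisibility
      have hdvd : ∀ j, j = 1 ∨ j = 2 → ∃ f g : L[X], (∀ i ∈ J, i + j ∈ J → g.eval (x i) ≠ 0 ∧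
          g.eval (y i) ≠ 0 ∧ x (i + j) = f.eval (x i) / g.eval (x i) ∧
          y (i + j) = f.eval (y i) / g.eval (y i)) ∧ G₀ ∣ subs f g A (b + 1) G₀ := by
        intro j hj
        obtain ⟨f, g, hf, hg, hfg⟩ := h.step j hj
        refine ⟨f, g, hfg, ?_⟩
        set Φ := subs f g A (b + 1) G₀ with hΦ
        obtain ⟨c, Q, R, hc, hcΦ, hRb, hRX⟩ := pseudo (by omega) hdeg hXD.2 ((b + 1) * D + 1) Φ
          (A * D) (by
            have hΦd : Φ.natDegree ≤ (b + 1) * D := natDegree_subs hf hg A (b + 1) G₀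
            omega) (XD_subs hf hg A (b + 1) G₀)
        obtain ⟨E, hE, hE'⟩ := exists_exc h hc₀ hc₀A s (m / 2) j
        have hR0 : R = 0 := by
          refine fix hcase (by omega) hRX E hE (by omega) ?_
          intro i hi h1 h2 h3
          obtain ⟨h4, h5, h6⟩ := hE' i hi h1 h2 h3
          have h7 := hv₀ i hi h1 (by omega) h5
          have h8 := hv₀ (i + j) h4 (by omega) (by omega) h6
          have h9 := eval_subs_zero hfg (by omega : G₀.natDegree ≤ b + 1) hXD.2 hi h4 h8
          have h10 := congrArg (evalEval (x i) (y i)) hcΦ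
          rw [evalEval_mul, h9, mul_zero, evalEval_add, evalEval_mul, h7, mul_zero, zero_add]
            at h10
          exact h10.symm
        rw [hR0, add_zero] at hcΦ
        exact dvd_of_C_mul hprim hc ⟨Q, by rw [hcΦ, mul_comm]⟩
      obtain ⟨f₁, g₁, hfg₁, hd₁⟩ := hdvd 1 (Or.inl rfl)
      obtain ⟨f₂, g₂, hfg₂, hd₂⟩ := hdvd 2 (Or.inr rfl)
      -- a first index
      obtain ⟨i₀, hi₀, hsi₀, hi₀A, hV₀⟩ : ∃ i₀ ∈ J, s ≤ i₀ ∧ i₀ < s + (A + 2) ∧
          G₀.evalEval (x i₀) (y i₀) = 0 := by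
        by_contra hcon
        push Not at hcon
        set E := (Finset.Ico s (s + (A + 2))).filter fun i => i ∈ J with hE
        have h1 : E.card ≤ A := by
          apply h.card_roots hc₀ hc₀A
          intro i hi
          obtain ⟨h2, h3⟩ := Finset.mem_filter.mp hi
          rw [Finset.mem_Ico] at h2
          refine ⟨h3, ?_⟩
          by_contra h4
          exact hcon i h3 h2.1 h2.2 (hv₀ i h3 h2.1 (by omega) h4)
        have h2 : ((Finset.Ico s (s + (A + 2))).filter fun i => i ∉ J).card ≤ 1 := by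
          rw [Finset.card_le_one]
          intro a ha b hb
          exact h.miss _ _ (Finset.mem_filter.mp ha).2 (Finset.mem_filter.mp hb).2
        have h3 := Finset.card_filter_add_card_filter_not (s := Finset.Ico s (s + (A + 2)))
          (fun i => i ∈ J)
        rw [Nat.card_Ico, Nat.add_sub_cancel_left] at h3
        have h4 : E.card + ((Finset.Ico s (s + (A + 2))).filter fun i => i ∉ J).card = A + 2 := h3
        omega
      have hfut : ∀ i ∈ J, i₀ ≤ i → G₀.evalEval (x i) (y i) = 0 := by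
        intro i hi hle
        obtain ⟨k, rfl⟩ := Nat.exists_eq_add_of_le hle
        exact h.prop (V := fun i => G₀.evalEval (x i) (y i) = 0)
          (fun i hi hi1 h0 => step_of_dvd hfg₁ (by omega) hXD.2 hd₁ hi hi1 h0)
          (fun i hi hi1 h0 => step_of_dvd hfg₂ (by omega) hXD.2 hd₂ hi hi1 h0) hi₀ hV₀ k hi
      have hG₀t : Tail x y J G₀ := ⟨i₀, hfut⟩
      obtain ⟨T, hT⟩ := exists_tmin h hG₀ hG₀t
      have hTb : T.natDegree ≤ b + 1 := by
        have := hT.min G₀ hG₀ hG₀t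
        omega
      have hTX := hII T hT
      obtain ⟨G₁, hG₁⟩ := hT.dvd h hG₀t
      have hG₁0 : G₁ ≠ 0 := by
        rintro rfl
        exact hG₀ (by rw [hG₁, mul_zero])
      have hT1 := hT.one_le h
      -- vanishing of `T` is preserved
      have hTd : ∀ j, j = 1 ∨ j = 2 → ∃ f g : L[X], (∀ i ∈ J, i + j ∈ J → g.eval (x i) ≠ 0 ∧
          g.eval (y i) ≠ 0 ∧ x (i + j) = f.eval (x i) / g.eval (x i) ∧
          y (i + j) = f.eval (y i) / g.eval (y i)) ∧
          T ∣ subs f g T.natDegree T.natDegree T := by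
        intro j hj
        obtain ⟨f, g, hf, hg, hfg⟩ := h.step j hj
        refine ⟨f, g, hfg, hT.dvd h ?_⟩
        obtain ⟨s₁, hs₁⟩ := hT.tail
        have hmiss : ∃ s₂, ∀ i, s₂ ≤ i → i ∈ J := by
          by_cases hall : ∀ i, i ∈ J
          · exact ⟨0, fun i _ => hall i⟩
          · push Not at hall
            obtain ⟨i₂, hi₂⟩ := hall
            refine ⟨i₂ + 1, fun i hi => ?_⟩
            by_contra hcon
            have := h.miss _ _ hcon hi₂
            omega
        obtain ⟨s₂, hs₂⟩ := hmiss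
        refine ⟨max s₁ s₂, fun i hi hsi => ?_⟩
        have h1 : s₁ ≤ i := (le_max_left _ _).trans hsi
        have h2 : s₂ ≤ i := (le_max_right _ _).trans hsi
        exact eval_subs_zero hfg le_rfl hTX hi (hs₂ _ (by omega))
          (hs₁ _ (hs₂ _ (by omega)) (by omega))
      obtain ⟨f₃, g₃, hfg₃, hd₃⟩ := hTd 1 (Or.inl rfl)
      obtain ⟨f₄, g₄, hfg₄, hd₄⟩ := hTd 2 (Or.inr rfl)
      by_cases hin : ∃ i ∈ J, s ≤ i ∧ i < s + m / 2 ∧ T.evalEval (x i) (y i) = 0
      · obtain ⟨i₁, hi₁, h1, h2, h3⟩ := hin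
        refine ⟨s + m / 2, m - m / 2, T, by omega, by omega, ?_, hT.ne, hTb, hTX.mono hTb, ?_⟩
        · have h4 : m ≤ 2 * (m - m / 2) := by omega
          have h5 : 2 * (m - m / 2) ≤ (4 * c₁ + 4) * (m - m / 2) :=
            Nat.mul_le_mul_right _ (by omega)
          omega
        · intro i hi h4 _
          obtain ⟨k, rfl⟩ := Nat.exists_eq_add_of_le (show i₁ ≤ i by omega)
          exact h.prop (V := fun i => T.evalEval (x i) (y i) = 0)
            (fun i hi hi1 h0 => step_of_dvd hfg₃ le_rfl hTX hd₃ hi hi1 h0)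
            (fun i hi hi1 h0 => step_of_dvd hfg₄ le_rfl hTX hd₄ hi hi1 h0) hi₁ h3 k hi
      · exfalso
        push Not at hin
        apply hG₁0
        have hXG₁ : XD A G₁ := (XD.of_mul hT.ne hG₁0 (hG₁ ▸ hXD.2)).2
        have hdG₁ : G₁.natDegree ≤ b := by
          have h1 := natDegree_mul hT.ne hG₁0
          rw [← hG₁, hdeg] at h1
          omega
        refine fix hcase hdG₁ hXG₁ (Finset.Ico s (s + (A + 2)))
          (k := A + 2) (by rw [Nat.card_Ico]; omega) (by omega) ?_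
        intro i hi h1 h2 h3
        have h4 : i₀ ≤ i := by
          by_contra h5
          exact h3 (Finset.mem_Ico.mpr ⟨h1, by omega⟩)
        have h5 := hfut i hi h4
        rw [hG₁, evalEval_mul] at h5
        exact (mul_eq_zero.mp h5).resolve_left (hin i hi h1 h2)
    · -- a relation of smaller degree on the first half
      push Not at hcase
      obtain ⟨R, hRb, hRX, hRv, hR0⟩ := hcase
      obtain ⟨s', m', G', h1, h2, h3, h4, h5, h6, h7⟩ := hIH L x y J h hII s (m / 2) (by omega) R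
        hR0 hRb hRX hRv
      refine ⟨s', m', G', h1, by omega, ?_, h4, by omega, h6.mono (by omega), h7⟩
      have h8 : m ≤ 2 * (m / 2) + 1 := by omega
      have h9 : 1 ≤ m / 2 := by omega
      have h10 : m ≤ 4 * (m / 2) := by omega
      calc m ≤ 4 * (m / 2) := h10
        _ ≤ 4 * (c₁ * m') := Nat.mul_le_mul_left _ h3
        _ ≤ (4 * c₁ + 4) * m' := by
            rw [add_mul, mul_assoc]
            omega

end

end Pool.Agent.R829.BG
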