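import Mathlib
import Pool.Agent.R829.BG.Win

/-!
The minimal relation on a tail of an orbit of pairs of points of equal heights.
-/

set_option autoImplicit false
set_option linter.unusedSectionVars false

namespace Pool.Agent.R829.BG

open Polynomial NumberField Module

noncomputable section

section bp

variable {L : Type} [Field L] {r c : ℕ}

/-- the polynomial with given coefficients -/
def bp (u : Fin r × Fin c → L) : L[X][X] :=
  ∑ ij, monomial (ij.2 : ℕ) (monomial (ij.1 : ℕ) (u ij))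

lemma bp_coeff (u : Fin r × Fin c → L) (i j : ℕ) : ((bp u).coeff j).coeff i =
    ∑ ij : Fin r × Fin c, if (ij.2 : ℕ) = j ∧ (ij.1 : ℕ) = i then u ij else 0 := by
  unfold bp
  rw [finsetSum_coeff, finsetSum_coeff]
  refine Finset.sum_congr rfl fun ij _ => ?_
  rw [coeff_monomial]
  by_cases h1 : (ij.2 : ℕ) = j
  · rw [if_pos h1, coeff_monomial]
    by_cases h2 : (ij.1 : ℕ) = i
    · simp [h1, h2]
    · simp [h1, h2]
  · simp [h1]

lemma bp_coeff_eq (u : Fin r × Fin c → L) (i : Fin r) (j : Fin c) :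
    ((bp u).coeff j).coeff i = u (i, j) := by
  rw [bp_coeff, Finset.sum_eq_single (i, j)]
  · simp
  · rintro ⟨i', j'⟩ _ hne
    rw [if_neg]
    rintro ⟨h1, h2⟩
    exact hne (Prod.ext (Fin.ext h2) (Fin.ext h1))
  · intro h
    exact absurd (Finset.mem_univ _) h

lemma bp_eq_zero {u : Fin r × Fin c → L} (h : bp u = 0) : u = 0 := by
  funext ij
  have h1 := bp_coeff_eq u ij.1 ij.2
  rw [h] at h1
  simpa using h1.symm

lemma bp_zero : bp (0 : Fin r × Fin c → L) = 0 := by
  simp [bp]

lemma bp_add (u v : Fin r × Fin c → L) : bp (u + v) = bp u + bp v := by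
  unfold bp
  rw [← Finset.sum_add_distrib]
  refine Finset.sum_congr rfl fun ij _ => ?_
  rw [Pi.add_apply, map_add, map_add]

lemma bp_smul (a : L) (u : Fin r × Fin c → L) : bp (a • u) = C (C a) * bp u := by
  unfold bp
  rw [Finset.mul_sum]
  refine Finset.sum_congr rfl fun ij _ => ?_
  rw [C_mul_monomial, C_mul_monomial]
  rfl

lemma bp_XD (u : Fin r × Fin c → L) : XD (r - 1) (bp u) := by
  refine XD.sum _ fun ij _ => ?_
  intro n
  rw [coeff_monomial]
  split_ifs
  · refine (natDegree_monomial_le _).trans ?_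
    have := ij.1.2
    omega
  · simp

lemma bp_natDegree (u : Fin r × Fin c → L) : (bp u).natDegree ≤ c - 1 := by
  refine natDegree_sum_le_of_forall_le _ _ fun ij _ => ?_
  refine (natDegree_monomial_le _).trans ?_
  have := ij.2.2
  omega

lemma bp_evalEval (u : Fin r × Fin c → L) (x y : L) :
    (bp u).evalEval x y = ∑ ij, u ij * (x ^ (ij.1 : ℕ) * y ^ (ij.2 : ℕ)) := by
  unfold bp
  rw [evalEval_finsetSum]
  refine Finset.sum_congr rfl fun ij _ => ?_
  rw [evalEval, eval_monomial, eval_mul, eval_pow, eval_C, eval_monomial]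
  ring

end bp

section height

variable {L : Type} [Field L] [NumberField L]

lemma mono_height (a : ℕ) (ha : 1 ≤ a) : ∃ C : ℝ, ∀ x : L,
    Height.logHeight (fun i : Fin a => x ^ (i : ℕ)) ≤ C + (a - 1 : ℕ) * Height.logHeight₁ x := by
  set p : Fin a → MvPolynomial (Fin 2) L := fun i =>
    MvPolynomial.X 0 ^ (i : ℕ) * MvPolynomial.X 1 ^ (a - 1 - (i : ℕ)) with hp
  have hhom : ∀ i, (p i).IsHomogeneous (a - 1) := by
    intro i
    have h1 := (MvPolynomial.isHomogeneous_X_pow (R := L) (0 : Fin 2) (i : ℕ)).mul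
      (MvPolynomial.isHomogeneous_X_pow (R := L) (1 : Fin 2) (a - 1 - (i : ℕ)))
    have h2 : (i : ℕ) + (a - 1 - (i : ℕ)) = a - 1 := by
      have := i.2
      omega
    rwa [h2] at h1
  obtain ⟨C, hC⟩ := Height.logHeight_eval_le' hhom
  refine ⟨C, fun x => ?_⟩
  have h1 := hC ![x, 1]
  have h2 : (fun j => MvPolynomial.eval ![x, 1] (p j)) = fun i : Fin a => x ^ (i : ℕ) := by
    funext i
    simp [hp]
  rw [h2, ← Height.logHeight₁_eq_logHeight] at h1
  exact h1

lemma height_ineq (a t n : ℕ) (ha : 1 ≤ a) (u w : Fin a × Fin (t + 1) → L) :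
    ∃ C : ℝ, ∀ x y : L, (bp w).evalEval x y ≠ 0 →
      (bp u).evalEval x y = (bp w).evalEval x y * x ^ n →
      n * Height.logHeight₁ x ≤ C + (a - 1 : ℕ) * Height.logHeight₁ x +
        t * Height.logHeight₁ y := by
  obtain ⟨C₁, hC₁⟩ := mono_height (L := L) a ha
  obtain ⟨C₂, hC₂⟩ := mono_height (L := L) (t + 1) (by omega)
  set A : Fin 2 × (Fin a × Fin (t + 1)) → L := fun ji => if ji.1 = 0 then u ji.2 else w ji.2
    with hA
  refine ⟨Height.totalWeight L * Real.log (Nat.card (Fin a × Fin (t + 1))) +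
    Height.logHeight A + C₁ + C₂, fun x y hw hu => ?_⟩
  set z : Fin a × Fin (t + 1) → L := fun ij => x ^ (ij.1 : ℕ) * y ^ (ij.2 : ℕ) with hz
  have h1 := Height.logHeight_linearMap_apply_le A z
  have h2 : (fun j => ∑ i, A (j, i) * z i) = ((bp w).evalEval x y) • ![x ^ n, 1] := by
    funext j
    fin_cases j
    · have : ∑ i, A (0, i) * z i = (bp u).evalEval x y := by
        rw [bp_evalEval]
        rfl
      simp only [Fin.zero_eta, Pi.smul_apply, smul_eq_mul, Matrix.cons_val_zero]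
      rw [this, hu]
    · have : ∑ i, A (1, i) * z i = (bp w).evalEval x y := by
        rw [bp_evalEval]
        rfl
      simp only [Fin.mk_one, Pi.smul_apply, smul_eq_mul, Matrix.cons_val_one, Matrix.cons_val_fin_one,
        mul_one]
      exact this
  rw [h2, Height.logHeight_smul_eq_logHeight _ hw, ← Height.logHeight₁_eq_logHeight,
    Height.logHeight₁_pow] at h1
  have hx0 : (fun i : Fin a => x ^ (i : ℕ)) ≠ 0 := by
    intro h0
    have h3 := congrFun h0 ⟨0, by omega⟩
    simp at h3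
  have hy0 : (fun i : Fin (t + 1) => y ^ (i : ℕ)) ≠ 0 := by
    intro h0
    have h3 := congrFun h0 ⟨0, by omega⟩
    simp at h3
  have h3 : Height.logHeight z = Height.logHeight (fun i : Fin a => x ^ (i : ℕ)) +
      Height.logHeight (fun i : Fin (t + 1) => y ^ (i : ℕ)) :=
    Height.logHeight_fun_mul_eq hx0 hy0
  have h4 := hC₁ x
  have h5 := hC₂ y
  have h6 : ((t + 1 - 1 : ℕ) : ℝ) = t := by simp
  rw [h6] at h5
  linarith

variable {D : ℕ} {x y : ℕ → L} {J : Set ℕ}

/-- **the minimal relation on a tail** has small degree in the first variable too -/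
theorem deg_le (h : Orb D x y J)
    (hh : ∀ i ∈ J, Height.logHeight₁ (y i) = Height.logHeight₁ (x i))
    (hinf : ∀ B : ℝ, ∃ s, ∀ i ∈ J, s ≤ i → B < Height.logHeight₁ (x i))
    {T : L[X][X]} (hT : TMin x y J T) : XD T.natDegree T := by
  rw [XD_iff]
  change xd T ≤ _
  by_contra hcon
  push Not at hcon
  obtain ⟨a, ha⟩ : ∃ a, a = xd T := ⟨_, rfl⟩
  obtain ⟨b, hb⟩ : ∃ b, b = T.natDegree := ⟨_, rfl⟩
  rw [← ha, ← hb] at hcon
  have hb1 : 1 ≤ b := hb ▸ hT.one_le h
  obtain ⟨t, ht⟩ : ∃ t, t = a * b := ⟨_, rfl⟩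
  obtain ⟨n, hn⟩ : ∃ n, n = t + 1 + a := ⟨_, rfl⟩
  have hbt : b ≤ t := by
    rw [ht]
    exact Nat.le_mul_of_pos_left _ (by omega)
  have hTX : XD a T := XD_iff.mpr (le_of_eq ha.symm)
  -- the linear system
  set Ψ : ((Fin a × Fin (t + 1) → L) × (Fin a × Fin (t + 1) → L) ×
      (Fin n × Fin (t + 1 - b) → L)) →ₗ[L] (Fin (n + a) × Fin (t + 1) → L) :=
    { toFun := fun z ij => ((bp z.1 * C (X ^ n) - bp z.2.1 - T * bp z.2.2).coeff ij.2).coeff ij.1
      map_add' := fun z z' => by
        funext ij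
        simp only [Prod.fst_add, Prod.snd_add, bp_add, Pi.add_apply]
        rw [← coeff_add, ← coeff_add]
        congr 2
        ring
      map_smul' := fun m z => by
        funext ij
        simp only [Prod.smul_fst, Prod.smul_snd, bp_smul, Pi.smul_apply, RingHom.id_apply,
          smul_eq_mul]
        have h1 : C (C m) * bp z.1 * C (X ^ n) - C (C m) * bp z.2.1 - T * (C (C m) * bp z.2.2) =
            C (C m) * (bp z.1 * C (X ^ n) - bp z.2.1 - T * bp z.2.2) := by ring
        rw [h1, coeff_C_mul, coeff_C_mul] } with hΨ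
  have hker : LinearMap.ker Ψ ≠ ⊥ := by
    apply LinearMap.ker_ne_bot_of_finrank_lt
    simp only [finrank_prod, finrank_fintype_fun_eq_card, Fintype.card_prod, Fintype.card_fin]
    obtain ⟨t', ht'⟩ : ∃ t', t + 1 = t' + b := ⟨t + 1 - b, by omega⟩
    have h1 : t + 1 - b = t' := by omega
    rw [h1]
    have h2 : n * b < a * (t + 1) := by
      rw [hn, ht]
      obtain ⟨e, he⟩ : ∃ e, a = b + 1 + e := ⟨a - (b + 1), by omega⟩
      rw [he]
      nlinarith [Nat.zero_le e, Nat.zero_le b, mul_nonneg (Nat.zero_le e) (Nat.zero_le b)]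
    have h3 : (n + a) * (t + 1) = n * t' + n * b + a * (t + 1) := by
      rw [add_mul, ht']
      ring
    rw [h3]
    omega
  obtain ⟨⟨α, δ, β⟩, hz, hz0⟩ := (Submodule.ne_bot_iff _).mp hker
  rw [LinearMap.mem_ker] at hz
  set P : L[X][X] := bp α * C (X ^ n) - bp δ - T * bp β with hP
  have hcoef : ∀ (i j : ℕ), i < n + a → j < t + 1 → (P.coeff j).coeff i = 0 := by
    intro i j hi hj
    exact congrFun hz (⟨i, hi⟩, ⟨j, hj⟩)
  have hPX : XD (n + a - 1) P := by
    have h1 : XD ((a - 1) + n) (bp α * C (X ^ n) : L[X][X]) :=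
      (bp_XD α).mul (XD.C (natDegree_X_pow_le n))
    have h2 : XD (a + (n - 1)) (T * bp β) := hTX.mul (bp_XD β)
    exact ((h1.mono (by omega)).sub ((bp_XD δ).mono (by omega))).sub (h2.mono (by omega))
  have hPd : P.natDegree ≤ t := by
    refine (natDegree_sub_le _ _).trans (max_le ((natDegree_sub_le _ _).trans (max_le ?_ ?_)) ?_)
    · refine natDegree_mul_le.trans ?_
      rw [natDegree_C, add_zero]
      exact bp_natDegree α
    · exact bp_natDegree δ
    · rcases Nat.eq_zero_or_pos (t + 1 - b) with h0 | h0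
      · omega
      · refine natDegree_mul_le.trans ?_
        have := bp_natDegree β
        omega
  have hP0 : P = 0 := by
    ext j i
    rw [coeff_zero, coeff_zero]
    by_cases hj : j < t + 1
    · by_cases hi : i < n + a
      · exact hcoef i j hi hj
      · exact coeff_eq_zero_of_natDegree_lt (lt_of_le_of_lt (hPX j) (by omega))
    · rw [coeff_eq_zero_of_natDegree_lt (lt_of_le_of_lt hPd (by omega)), coeff_zero]
  -- `α` is not zero
  have hα : α ≠ 0 := by
    rintro rfl
    rw [hP, bp_zero, zero_mul, zero_sub] at hP0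
    have h1 : bp δ = T * (-bp β) := by linear_combination -hP0
    by_cases hβ : bp β = 0
    · have h2 : bp δ = 0 := by rw [h1, hβ, neg_zero, mul_zero]
      apply hz0
      rw [bp_eq_zero hβ, bp_eq_zero h2]
      rfl
    · have h2 := xd_mul hT.ne (neg_ne_zero.mpr hβ)
      rw [← h1, ← ha] at h2
      have h3 : xd (bp δ) ≤ a - 1 := XD_iff.mp (bp_XD δ)
      omega
  have hα' : bp α ≠ 0 := fun h0 => hα (bp_eq_zero h0)
  have hnt : ¬ Tail x y J (bp α) := by
    intro ht'
    obtain ⟨Q, hQ⟩ := hT.dvd h ht'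
    have hQ0 : Q ≠ 0 := by
      rintro rfl
      exact hα' (by rw [hQ, mul_zero])
    have h2 := xd_mul hT.ne hQ0
    rw [← hQ, ← ha] at h2
    have h3 : xd (bp α) ≤ a - 1 := XD_iff.mp (bp_XD α)
    omega
  obtain ⟨C₀, hC₀⟩ := height_ineq a t n (by omega) δ α
  obtain ⟨s₁, hs₁⟩ := hT.tail
  obtain ⟨s₂, hs₂⟩ := hinf C₀
  obtain ⟨s₃, hs₃⟩ := hinf 0
  unfold Tail at hnt
  push Not at hnt
  obtain ⟨i, hi, hsi, hne⟩ := hnt (max s₁ (max s₂ s₃))
  have h1 := hs₁ i hi ((le_max_left _ _).trans hsi)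
  have h2 := hs₂ i hi (((le_max_left _ _).trans (le_max_right _ _)).trans hsi)
  have h3 := hs₃ i hi (((le_max_right _ _).trans (le_max_right _ _)).trans hsi)
  have h4 : (bp δ).evalEval (x i) (y i) = (bp α).evalEval (x i) (y i) * x i ^ n := by
    have h5 := congrArg (evalEval (x i) (y i)) hP0
    rw [hP, evalEval_sub, evalEval_sub, evalEval_mul, evalEval_mul, h1, zero_mul, evalEval_C,
      eval_pow, eval_X, evalEval_zero, sub_zero] at h5
    linear_combination -h5
  have h5 := hC₀ (x i) (y i) hne h4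
  rw [hh i hi, hn] at h5
  have h6 : ((a - 1 : ℕ) : ℝ) ≤ a := by exact_mod_cast Nat.sub_le a 1
  push_cast at h5
  have h7 := mul_le_mul_of_nonneg_right h6 h3.le
  nlinarith

end height

end

end Pool.Agent.R829.BG
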