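import Mathlib
import Pool.Agent.H627.LU.Iq
import Pool.Agent.H627.LP.Frob

/-!
Interpolation determinants in two variables at pairs of points close to the graph of Frobenius.
-/

set_option autoImplicit false
set_option linter.unusedSectionVars false

namespace Pool.Agent.R829.BG

open NumberField Module
open Pool.Agent.W238.Leh
open Pool.Agent.H627.LP hiding det_ineq det_ineq' local_gain
open Pool.Agent.H627.LR (GR)
open Pool.Agent.H420R3 (mi nv v_smul)

noncomputable section

section uni

variable {M : Type} [Field M] [NumberField M] {v : FinitePlace M}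

variable (v) in
/-- integral coefficients -/
def IU (g : Polynomial M) : Prop := ∀ n, v (g.coeff n) ≤ 1

lemma IU.sum {ι : Type*} {s : Finset ι} {f : ι → Polynomial M}
    (h : ∀ i ∈ s, IU v (f i)) : IU v (∑ i ∈ s, f i) := fun m => by
  rw [Polynomial.finsetSum_coeff]
  exact v_sum_le v _ _ zero_le_one fun i hi => h i hi m

lemma IU.eval {g : Polynomial M} (h : IU v g) {x : M} (hx : v x ≤ 1) : v (g.eval x) ≤ 1 := by
  rw [Polynomial.eval_eq_sum_range]
  refine v_sum_le v _ _ zero_le_one fun n _ => ?_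
  rw [map_mul, map_pow]
  exact mul_le_one₀ (h n) (pow_nonneg (v_nonneg v _) _) (pow_le_one₀ (v_nonneg v _) hx)

lemma IU.hasse {g : Polynomial M} (h : IU v g) (k : ℕ) : IU v (Polynomial.hasseDeriv k g) := by
  intro n
  rw [Polynomial.hasseDeriv_coeff, map_mul]
  refine mul_le_one₀ ?_ (v_nonneg v _) (h _)
  exact v_int_le v (isIntegral_natCast _)

/-- Taylor expansion -/
lemma taylor_le {g : Polynomial M} (h : IU v g) {r δ : M} (hr : v r ≤ 1) {η : ℝ} (hη : 0 ≤ η)
    (hη1 : η ≤ 1) (hδ : v δ ≤ η) (s : ℕ) :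
    v (g.eval (r + δ) - ∑ k ∈ Finset.range s, (Polynomial.hasseDeriv k g).eval r * δ ^ k) ≤
      η ^ s := by
  have h1 : g.eval (r + δ) = ∑ k ∈ Finset.range (s + (g.natDegree + 1)),
      (Polynomial.hasseDeriv k g).eval r * δ ^ k := by
    have h2 : g.eval (r + δ) = (Polynomial.taylor r g).eval δ := by
      rw [Polynomial.taylor_eval, add_comm]
    rw [h2, Polynomial.eval_eq_sum_range' (n := s + (g.natDegree + 1))]
    · refine Finset.sum_congr rfl fun k _ => ?_
      rw [Polynomial.taylor_coeff]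
    · rw [Polynomial.natDegree_taylor]
      omega
  rw [h1, Finset.sum_range_add, add_sub_cancel_left]
  refine v_sum_le v _ _ (pow_nonneg hη _) fun k _ => ?_
  rw [map_mul, map_pow]
  have h3 : v δ ^ (s + k) ≤ η ^ s := by
    rw [pow_add]
    calc v δ ^ s * v δ ^ k ≤ η ^ s * 1 := by
          apply mul_le_mul (pow_le_pow_left₀ (v_nonneg v _) hδ s)
            (pow_le_one₀ (v_nonneg v _) (hδ.trans hη1)) (pow_nonneg (v_nonneg v _) _)
            (pow_nonneg hη _)
      _ = η ^ s := mul_one _
  calc v ((Polynomial.hasseDeriv (s + k) g).eval r) * v δ ^ (s + k) ≤ 1 * η ^ s :=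
        mul_le_mul ((h.hasse _).eval hr) h3 (pow_nonneg (v_nonneg v _) _) zero_le_one
    _ = η ^ s := one_mul _

end uni

section dh

variable {M : Type} [Field M] [NumberField M] {v : FinitePlace M}

/-- the other index -/
def oth (c : Fin (1 + 1)) : Fin (1 + 1) := 1 - c

lemma oth_ne (c : Fin (1 + 1)) : oth c ≠ c := by
  fin_cases c <;> decide

lemma eq_oth {c t : Fin (1 + 1)} (h : t ≠ c) : t = oth c := by
  fin_cases c <;> fin_cases t <;> first | rfl | exact absurd rfl h

/-- dehomogenisation -/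
def dh (c : Fin (1 + 1)) (φ : MvPolynomial (Fin (1 + 1)) M) : Polynomial M :=
  MvPolynomial.aeval (fun t => if t = c then (1 : Polynomial M) else Polynomial.X) φ

lemma dh_eval (c : Fin (1 + 1)) (φ : MvPolynomial (Fin (1 + 1)) M) {z : Fin (1 + 1) → M}
    (hz : z c = 1) : (dh c φ).eval (z (oth c)) = MvPolynomial.eval z φ := by
  unfold dh
  have h1 : (Polynomial.aeval (z (oth c)) (MvPolynomial.aeval (fun t => if t = c then
      (1 : Polynomial M) else Polynomial.X) φ) : M) =
      MvPolynomial.aeval (fun t => Polynomial.aeval (z (oth c)) (if t = c then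
      (1 : Polynomial M) else Polynomial.X)) φ :=
    MvPolynomial.comp_aeval_apply _ (Polynomial.aeval (z (oth c))) φ
  rw [Polynomial.coe_aeval_eq_eval] at h1
  have h2 : ∀ u : Fin (1 + 1) → M, MvPolynomial.aeval u φ = MvPolynomial.eval u φ := by
    intro u
    rw [← MvPolynomial.coe_aeval_eq_eval]
    rfl
  rw [h1, h2]
  congr 2
  funext t
  by_cases ht : t = c
  · rw [if_pos ht, ht, hz]
    simp
  · rw [if_neg ht, eq_oth ht]
    simp

lemma dh_eq (c : Fin (1 + 1)) (φ : MvPolynomial (Fin (1 + 1)) M) :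
    dh c φ = ∑ s ∈ φ.support, Polynomial.C (φ.coeff s) * Polynomial.X ^ (s (oth c)) := by
  unfold dh
  rw [MvPolynomial.aeval_def, MvPolynomial.eval₂_eq']
  refine Finset.sum_congr rfl fun s _ => ?_
  congr 1
  rw [Finset.prod_eq_single (oth c)]
  · rw [if_neg (oth_ne c)]
  · intro t _ ht
    have : t = c := by
      by_contra h
      exact ht (eq_oth h)
    rw [if_pos this, one_pow]
  · intro h
    exact absurd (Finset.mem_univ _) h

lemma dh_natDegree (c : Fin (1 + 1)) {φ : MvPolynomial (Fin (1 + 1)) M} {m : ℕ}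
    (hφ : φ.IsHomogeneous m) : (dh c φ).natDegree ≤ m := by
  rw [dh_eq]
  refine Polynomial.natDegree_sum_le_of_forall_le _ _ fun s hs => ?_
  refine (Polynomial.natDegree_C_mul_X_pow_le _ _).trans ?_
  have h1 := hφ (MvPolynomial.mem_support_iff.mp hs)
  have h2 : s.degree = (Finsupp.weight 1) s := by
    rw [Finsupp.degree_eq_weight_one]
    rfl
  rw [← h1, ← h2]
  exact Finsupp.le_degree (oth c) s

lemma dh_int (c : Fin (1 + 1)) {φ : MvPolynomial (Fin (1 + 1)) M} (hφ : IntP v φ) :
    IU v (dh c φ) := by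
  rw [dh_eq]
  refine IU.sum fun s _ => ?_
  intro n
  rw [Polynomial.coeff_C_mul_X_pow]
  split_ifs
  · exact hφ s
  · rw [map_zero]
    exact zero_le_one

end dh

section Local

variable {K : Type} [Field K] [NumberField K] {M : Type} [Field M] [NumberField M] [Algebra K M]
  {F : Fin (1 + 1) → MvPolynomial (Fin (1 + 1)) K} {q : ℕ} {v : FinitePlace M}

variable {ι : Type} [Fintype ι] [DecidableEq ι]

lemma aeval_eq_eval_map {z : Fin (1 + 1) → M} (φ : MvPolynomial (Fin (1 + 1)) K) :
    MvPolynomial.aeval z φ = MvPolynomial.eval z (MvPolynomial.map (algebraMap K M) φ) := by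
  rw [MvPolynomial.eval_map, MvPolynomial.aeval_def]

/-- **the local gain for pairs close to the graph of Frobenius** -/
theorem two_gain (hR : GR v F q) (hF : ∀ i, (F i).IsHomogeneous q) (la lb : List ℕ)
    (Φ Ψ : ι → MvPolynomial (Fin (1 + 1)) K) (hΦ : ∀ j, Φ j ∈ GG F la) (hΨ : ∀ j, Ψ j ∈ GG F lb)
    (p : ι → Fin (1 + 1) → M) (hp : ∀ i, p i ≠ 0) {τ : Gal(M/K)} {Q : ℕ} (hfr : FrobAt v τ Q)
    (s : ℕ) :
    v (Matrix.of fun i j => MvPolynomial.aeval (p i) (Φ j) *
        MvPolynomial.aeval (fun t => τ (p i t)) (Ψ j)).det ≤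
      (∏ i, nmf v (p i) ^ ldeg q la * nmf v (fun t => τ (p i t)) ^ ldeg q lb) *
        (Real.exp (-Real.log (nv v)) ^ s) ^
          (Fintype.card ι - 2 * s * (ldeg q la + Q * ldeg q lb + 1)) := by
  classical
  set η := Real.exp (-Real.log (nv v)) with hη
  have hη0 : 0 < η := Real.exp_pos _
  have hη1 : η ≤ 1 := by
    rw [hη, Real.exp_le_one_iff]
    have := H420R3.log_nv_pos v
    linarith
  set m := ldeg q la with hm
  set n := ldeg q lb with hn
  choose a ha using fun i => exists_nmf (v := v) (p i)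
  have hpos : ∀ i, 0 < nmf v (p i) := fun i => nmf_pos v (hp i)
  have ha0 : ∀ i, p i (a i) ≠ 0 := by
    intro i h0
    have h1 := ha i
    rw [h0, map_zero] at h1
    have := hpos i
    linarith
  have hτ : ∀ y : M, v (τ y) = v y := fun y => v_smul v hfr.1 y
  have hτn : ∀ i, nmf v (fun t => τ (p i t)) = nmf v (p i) := by
    intro i
    unfold nmf
    simp only [hτ]
  set z : ι → Fin (1 + 1) → M := fun i => (p i (a i))⁻¹ • p i with hz
  have hza : ∀ i, z i (a i) = 1 := by
    intro i
    simp only [hz, Pi.smul_apply, smul_eq_mul]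
    exact inv_mul_cancel₀ (ha0 i)
  have hzle : ∀ i t, v (z i t) ≤ 1 := by
    intro i t
    simp only [hz, Pi.smul_apply, smul_eq_mul, map_mul, map_inv₀, ha]
    rw [inv_mul_le_iff₀ (hpos i), mul_one]
    exact le_nmf v _ _
  set w : ι → Fin (1 + 1) → M := fun i t => τ (z i t) with hw
  have hwa : ∀ i, w i (a i) = 1 := by
    intro i
    simp only [hw, hza, map_one]
  set ξ : ι → M := fun i => z i (oth (a i)) with hξ
  set δ : ι → M := fun i => τ (ξ i) - ξ i ^ Q with hδ
  have hξ1 : ∀ i, v (ξ i) ≤ 1 := fun i => hzle i _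
  have hδη : ∀ i, v (δ i) ≤ η := fun i => v_le_inv_nv (hfr.lt (hξ1 i))
  have hwδ : ∀ i, w i (oth (a i)) = ξ i ^ Q + δ i := by
    intro i
    simp only [hw, hδ, hξ]
    ring
  -- dehomogenised forms
  set f : Fin (1 + 1) → ι → Polynomial M := fun c j =>
    dh c (MvPolynomial.map (algebraMap K M) (Φ j)) with hf
  set g : Fin (1 + 1) → ι → Polynomial M := fun c j =>
    dh c (MvPolynomial.map (algebraMap K M) (Ψ j)) with hg
  have hfI : ∀ c j, IU v (f c j) := fun c j => dh_int c (GG_intP hR.int la (hΦ j))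
  have hgI : ∀ c j, IU v (g c j) := fun c j => dh_int c (GG_intP hR.int lb (hΨ j))
  have hfd : ∀ c j, (f c j).natDegree ≤ m := fun c j =>
    dh_natDegree c ((GG_hom hF la (hΦ j)).map _)
  have hgd : ∀ c j, (g c j).natDegree ≤ n := fun c j =>
    dh_natDegree c ((GG_hom hF lb (hΨ j)).map _)
  set W' : Matrix ι ι M := Matrix.of fun i j =>
    MvPolynomial.aeval (z i) (Φ j) * MvPolynomial.aeval (w i) (Ψ j) with hW'
  set X' : Matrix ι ι M := Matrix.of fun i j => (f (a i) j).eval (ξ i) *
    ∑ k ∈ Finset.range s, (Polynomial.hasseDeriv k (g (a i) j)).eval (ξ i ^ Q) * δ i ^ k with hX'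
  have hfe : ∀ i j, MvPolynomial.aeval (z i) (Φ j) = (f (a i) j).eval (ξ i) := by
    intro i j
    rw [aeval_eq_eval_map]
    exact (dh_eval (a i) _ (hza i)).symm
  have hge : ∀ i j, MvPolynomial.aeval (w i) (Ψ j) = (g (a i) j).eval (ξ i ^ Q + δ i) := by
    intro i j
    rw [aeval_eq_eval_map, ← hwδ]
    exact (dh_eval (a i) _ (hwa i)).symm
  have hξQ : ∀ i, v (ξ i ^ Q) ≤ 1 := fun i => by
    rw [map_pow]
    exact pow_le_one₀ (v_nonneg v _) (hξ1 i)
  have hY : ∀ i j, v ((W' - X') i j) ≤ η ^ s := by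
    intro i j
    have h1 : (W' - X') i j = (f (a i) j).eval (ξ i) * ((g (a i) j).eval (ξ i ^ Q + δ i) -
        ∑ k ∈ Finset.range s, (Polynomial.hasseDeriv k (g (a i) j)).eval (ξ i ^ Q) *
          δ i ^ k) := by
      rw [Matrix.sub_apply, mul_sub]
      simp only [hW', hX', Matrix.of_apply]
      rw [hfe, hge]
    rw [h1, map_mul]
    calc _ ≤ 1 * η ^ s := mul_le_mul ((hfI _ _).eval (hξ1 i))
          (taylor_le (hgI _ _) (hξQ i) hη0.le hη1 (hδη i) s) (v_nonneg v _) zero_le_one
      _ = η ^ s := one_mul _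
  have hX1 : ∀ i j, v (X' i j) ≤ 1 := by
    intro i j
    simp only [hX', Matrix.of_apply]
    rw [map_mul]
    refine mul_le_one₀ ((hfI _ _).eval (hξ1 i)) (v_nonneg v _) ?_
    refine v_sum_le v _ _ zero_le_one fun k _ => ?_
    rw [map_mul, map_pow]
    exact mul_le_one₀ (((hgI _ _).hasse k).eval (hξQ i)) (pow_nonneg (v_nonneg v _) _)
      (pow_le_one₀ (v_nonneg v _) ((hδη i).trans hη1))
  -- the rank
  set U := m + Q * n + 1 with hU
  set e : Fin (1 + 1) × Fin s × Fin U → ι → M := fun b i =>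
    if a i = b.1 then δ i ^ (b.2.1 : ℕ) * ξ i ^ (b.2.2 : ℕ) else 0 with he
  have hcol : ∀ j, X'.col j ∈ Submodule.span M (Set.range e) := by
    intro j
    set h : Fin (1 + 1) → ℕ → Polynomial M := fun c k =>
      f c j * (Polynomial.hasseDeriv k (g c j)).comp (Polynomial.X ^ Q) with hh
    have hhd : ∀ c k, (h c k).natDegree < U := by
      intro c k
      have h1 : (h c k).natDegree ≤ m + n * Q := by
        refine Polynomial.natDegree_mul_le.trans (Nat.add_le_add (hfd c j) ?_)
        refine Polynomial.natDegree_comp_le.trans ?_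
        refine Nat.mul_le_mul ?_ (Polynomial.natDegree_X_pow_le Q)
        exact (Polynomial.natDegree_hasseDeriv_le _ _).trans
          ((Nat.sub_le _ _).trans (hgd c j))
      have h2 : n * Q = Q * n := mul_comm _ _
      omega
    have h1 : X'.col j = ∑ b : Fin (1 + 1) × Fin s × Fin U,
        (h b.1 (b.2.1 : ℕ)).coeff (b.2.2 : ℕ) • e b := by
      funext i
      rw [Finset.sum_apply, Fintype.sum_prod_type]
      rw [Finset.sum_eq_single (a i)]
      · rw [Fintype.sum_prod_type]
        simp only [Matrix.col, Matrix.transpose_apply, hX', Matrix.of_apply, Pi.smul_apply,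
          smul_eq_mul, he, if_true]
        rw [Finset.mul_sum, Finset.sum_range]
        refine Finset.sum_congr rfl fun k _ => ?_
        have h2 : (f (a i) j).eval (ξ i) *
            (Polynomial.hasseDeriv (k : ℕ) (g (a i) j)).eval (ξ i ^ Q) =
            (h (a i) k).eval (ξ i) := by
          simp only [hh]
          rw [Polynomial.eval_mul, Polynomial.eval_comp, Polynomial.eval_pow, Polynomial.eval_X]
        rw [← mul_assoc, h2, Polynomial.eval_eq_sum_range' (hhd _ _), Finset.sum_range,
          Finset.sum_mul]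
        refine Finset.sum_congr rfl fun l _ => ?_
        ring
      · intro c _ hc
        refine Finset.sum_eq_zero fun b _ => ?_
        simp only [he, Pi.smul_apply, smul_eq_mul]
        rw [if_neg (fun h => hc h.symm), mul_zero]
      · intro h
        exact absurd (Finset.mem_univ _) h
    rw [h1]
    exact Submodule.sum_mem _ fun b _ => Submodule.smul_mem _ _ (Submodule.subset_span ⟨b, rfl⟩)
  set S : Submodule M (ι → M) := Submodule.span M (Set.range X'.row) with hS
  have hSr : finrank M S ≤ 2 * s * U := by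
    have h1 : finrank M (Submodule.span M (Set.range e)) ≤ 2 * s * U := by
      refine (finrank_range_le_card e).trans (le_of_eq ?_)
      rw [Fintype.card_prod, Fintype.card_prod, Fintype.card_fin, Fintype.card_fin,
        Fintype.card_fin]
      ring
    refine le_trans ?_ h1
    rw [hS, ← Matrix.rank_eq_finrank_span_row, Matrix.rank_eq_finrank_span_cols]
    apply Submodule.finrank_mono
    rw [Submodule.span_le]
    rintro _ ⟨j, rfl⟩
    exact hcol j
  have hXS : ∀ i, X' i ∈ S := fun i => Submodule.subset_span ⟨i, rfl⟩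
  have h1 := det_rank_le v X' (W' - X') (pow_nonneg hη0.le s) (pow_le_one₀ hη0.le hη1) hX1 hY S
    hSr hXS
  rw [add_sub_cancel] at h1
  -- scaling
  have h2 : (Matrix.of fun i j => MvPolynomial.aeval (p i) (Φ j) *
      MvPolynomial.aeval (fun t => τ (p i t)) (Ψ j)) =
      Matrix.diagonal (fun i => p i (a i) ^ m * τ (p i (a i)) ^ n) * W' := by
    ext i j
    rw [Matrix.diagonal_mul]
    simp only [Matrix.of_apply, hW']
    have h3 : p i = p i (a i) • z i := by
      simp only [hz]
      rw [smul_smul, mul_inv_cancel₀ (ha0 i), one_smul]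
    have h4 : (fun t => τ (p i t)) = τ (p i (a i)) • w i := by
      funext t
      have h5 := congrFun h3 t
      simp only [Pi.smul_apply, smul_eq_mul] at h5 ⊢
      rw [h5, map_mul]
    have h5 : MvPolynomial.aeval (p i) (Φ j) = p i (a i) ^ m * MvPolynomial.aeval (z i) (Φ j) := by
      conv_lhs => rw [h3]
      exact aeval_smul_hom (GG_hom hF la (hΦ j)) _ _
    have h6 : MvPolynomial.aeval (fun t => τ (p i t)) (Ψ j) =
        τ (p i (a i)) ^ n * MvPolynomial.aeval (w i) (Ψ j) := by
      rw [h4]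
      exact aeval_smul_hom (GG_hom hF lb (hΨ j)) _ _
    rw [h5, h6]
    ring
  rw [h2, Matrix.det_mul, Matrix.det_diagonal, map_mul, map_prod]
  have h3 : ∏ i, v (p i (a i) ^ m * τ (p i (a i)) ^ n) =
      ∏ i, nmf v (p i) ^ m * nmf v (fun t => τ (p i t)) ^ n := by
    refine Finset.prod_congr rfl fun i _ => ?_
    rw [map_mul, map_pow, map_pow, hτ, ha, hτn]
  rw [h3]
  refine mul_le_mul_of_nonneg_left h1 (Finset.prod_nonneg fun i _ => ?_)
  exact mul_nonneg (pow_nonneg (nmf_nonneg v _) _) (pow_nonneg (nmf_nonneg v _) _)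

end Local

end

end Pool.Agent.R829.BG
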