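import Mathlib
import Pool.Agent.R829.BG.Loc
import Pool.Agent.R829.BG.Deg
import Pool.Agent.R829.DL.Lev

/-!
The product formula for interpolation determinants in two variables; relations between the
coordinates of the pairs of points.
-/

set_option autoImplicit false
set_option linter.unusedSectionVars false

namespace Pool.Agent.R829.BG

open NumberField Module MvPolynomial
open Pool.Agent.W238.Leh
open Pool.Agent.H627.LP hiding det_ineq det_ineq' local_gain
open Pool.Agent.H627.LR (GR)
open Pool.Agent.H420R3 (mi nv v_smul)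
open Pool.Agent.R829.DL (canH_hom)

noncomputable section

variable {K : Type} [Field K] [NumberField K] {M : Type} [Field M] [NumberField M] [Algebra K M]
  {ι : Type} [Fintype ι] [DecidableEq ι]
variable {F : Fin (1 + 1) → MvPolynomial (Fin (1 + 1)) K} {q c a : ℕ} {A : ℝ}

/-- evaluations of the forms of bidegree `(m, n)` at pairs of points -/
def E2 (K : Type) [Field K] {M : Type} [Field M] [Algebra K M] {ι : Type}
    (p p' : ι → Fin (1 + 1) → M) (m n : ℕ) : Submodule M (ι → M) :=
  Submodule.span M {v | ∃ φ ψ : MvPolynomial (Fin (1 + 1)) K, φ.IsHomogeneous m ∧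
    ψ.IsHomogeneous n ∧ v = fun i => aeval (p i) φ * aeval (p' i) ψ}

lemma E2_le_span (hF : ∀ i, (F i).IsHomogeneous q)
    (hc : ∀ m, c + q ≤ m → ∀ p : MvPolynomial (Fin (1 + 1)) K, p.IsHomogeneous m →
      p ∈ Ideal.span (Set.range F)) (p p' : ι → Fin (1 + 1) → M) (la lb : List ℕ)
    (hla : LOK c la) (hlb : LOK c lb) :
    E2 K p p' (ldeg q la) (ldeg q lb) ≤ Submodule.span M {v | ∃ φ ψ, φ ∈ GG F la ∧
      ψ ∈ GG F lb ∧ v = fun i => aeval (p i) φ * aeval (p' i) ψ} := by
  set S := Submodule.span M {v : ι → M | ∃ φ ψ, φ ∈ GG F la ∧ ψ ∈ GG F lb ∧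
    v = fun i => aeval (p i) φ * aeval (p' i) ψ} with hS
  unfold E2
  rw [Submodule.span_le]
  rintro _ ⟨φ, ψ, hφ, hψ, rfl⟩
  have h1 := homSub_le_span hF hc la hla hφ
  have h2 := homSub_le_span hF hc lb hlb hψ
  rw [SetLike.mem_coe]
  have hsm : ∀ (b : K) (f : ι → M), f ∈ S → (fun i => algebraMap K M b * f i) ∈ S := by
    intro b f hf
    exact Submodule.smul_mem _ (algebraMap K M b) hf
  refine Submodule.span_induction (p := fun x _ => (fun i => aeval (p i) x * aeval (p' i) ψ) ∈ S)
    ?_ ?_ ?_ ?_ h1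
  · intro x hx
    refine Submodule.span_induction
      (p := fun y _ => (fun i => aeval (p i) x * aeval (p' i) y) ∈ S) ?_ ?_ ?_ ?_ h2
    · intro y hy
      exact Submodule.subset_span ⟨x, y, hx, hy, rfl⟩
    · simp only [map_zero, mul_zero]
      exact Submodule.zero_mem _
    · intro y y' _ _ hy hy'
      have : (fun i => aeval (p i) x * aeval (p' i) (y + y')) =
          (fun i => aeval (p i) x * aeval (p' i) y) + fun i => aeval (p i) x * aeval (p' i) y' := by
        funext i
        simp [mul_add]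
      rw [this]
      exact Submodule.add_mem _ hy hy'
    · intro b y _ hy
      have : (fun i => aeval (p i) x * aeval (p' i) (b • y)) =
          fun i => algebraMap K M b * (aeval (p i) x * aeval (p' i) y) := by
        funext i
        rw [map_smul, Algebra.smul_def]
        ring
      rw [this]
      exact hsm b _ hy
  · simp only [map_zero, zero_mul]
    exact Submodule.zero_mem _
  · intro y y' _ _ hy hy'
    have : (fun i => aeval (p i) (y + y') * aeval (p' i) ψ) =
        (fun i => aeval (p i) y * aeval (p' i) ψ) + fun i => aeval (p i) y' * aeval (p' i) ψ := by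
      funext i
      simp [add_mul]
    rw [this]
    exact Submodule.add_mem _ hy hy'
  · intro b y _ hy
    have : (fun i => aeval (p i) (b • y) * aeval (p' i) ψ) =
        fun i => algebraMap K M b * (aeval (p i) y * aeval (p' i) ψ) := by
      funext i
      rw [map_smul, Algebra.smul_def]
      ring
    rw [this]
    exact hsm b _ hy

/-- **the inequality** -/
theorem two_ineq (hB : Bds F q A a) (hq : 2 ≤ q) (hF : ∀ i, (F i).IsHomogeneous q)
    (hc : ∀ m, c + q ≤ m → ∀ p : MvPolynomial (Fin (1 + 1)) K, p.IsHomogeneous m →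
      p ∈ Ideal.span (Set.range F)) {p : ι → Fin (1 + 1) → M} (hp : ∀ i, p i ≠ 0)
    {τ : Gal(M/K)} {Q : ℕ}
    (T : Finset (FinitePlace M)) (hT : ∀ v ∈ T, GR v F q) (hfr : ∀ v ∈ T, FrobAt v τ Q)
    {H : ℝ} (hH : ∀ i, canH F q (p i) ≤ H) (m n s : ℕ)
    (hr1 : 1 ≤ finrank M (E2 K p (fun i t => τ (p i t)) m n)) :
    (∑ v ∈ T, Real.log (nv v)) *
        (s * (finrank M (E2 K p (fun i t => τ (p i t)) m n) - 2 * s * (m + Q * n + 1) : ℕ)) ≤
      finrank ℚ M * (finrank M (E2 K p (fun i t => τ (p i t)) m n) * ((m + n) * H +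
        hC A a * ((c + q : ℕ) * (1 + Nat.log 2 m : ℕ)) +
        hC A a * ((c + q : ℕ) * (1 + Nat.log 2 n : ℕ)) +
        Real.log (finrank M (E2 K p (fun i t => τ (p i t)) m n)))) := by
  classical
  set p' : ι → Fin (1 + 1) → M := fun i t => τ (p i t) with hp'
  set r := finrank M (E2 K p p' m n) with hr
  obtain ⟨la, hl1, hl2, hl3, hl4⟩ := exists_list (c := c) hq m
  obtain ⟨lb, hm1, hm2, hm3, hm4⟩ := exists_list (c := c) hq n
  have hspan := E2_le_span (F := F) hF hc p p' la lb hl2 hm2
  rw [hl1, hm1] at hspan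
  obtain ⟨φv, hφt, hφli⟩ := exists_indep (L := M) _ (Submodule.finrank_mono hspan)
  choose φ ψ hφG hψG hφe using hφt
  obtain ⟨e, he⟩ := exists_minor φv hφli
  set P : Fin r → Fin (1 + 1) → M := fun k => p (e k) with hP
  set P' : Fin r → Fin (1 + 1) → M := fun k t => τ (P k t) with hP'
  have hP0 : ∀ k, P k ≠ 0 := fun k => hp _
  have hP'0 : ∀ k, P' k ≠ 0 := by
    intro k h0
    apply hP0 k
    funext t
    have := congrFun h0 t
    simp only [hP', Pi.zero_apply, EmbeddingLike.map_eq_zero_iff] at this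
    exact this
  set W : Matrix (Fin r) (Fin r) M := Matrix.of fun k j => aeval (P k) (φ j) * aeval (P' k) (ψ j)
    with hW
  have hdet : W.det ≠ 0 := by
    have h1 : W = (Matrix.of fun j k => φv j (e k)).transpose := by
      ext k j
      simp only [hW, Matrix.of_apply, Matrix.transpose_apply, hP, hP']
      rw [hφe j]
    rw [h1, Matrix.det_transpose]
    exact he
  have hiter : ∀ i j, (act F)^[j] (P i) ≠ 0 := fun i j => hB.iter_ne_zero (hP0 i) j
  have hiter' : ∀ i j, (act F)^[j] (P' i) ≠ 0 := fun i j => hB.iter_ne_zero (hP'0 i) j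
  have wa : ∀ (w : InfinitePlace M) i, 0 < wt (nmi w) (act F) la (P i) :=
    fun w i => wt_pos la fun j => nmi_pos w (hiter _ j)
  have wb : ∀ (w : InfinitePlace M) i, 0 < wt (nmi w) (act F) lb (P' i) :=
    fun w i => wt_pos lb fun j => nmi_pos w (hiter' _ j)
  have va : ∀ (v : FinitePlace M) i, 0 < wt (nmf v) (act F) la (P i) :=
    fun v i => wt_pos la fun j => nmf_pos v (hiter _ j)
  have vb : ∀ (v : FinitePlace M) i, 0 < wt (nmf v) (act F) lb (P' i) :=
    fun v i => wt_pos lb fun j => nmf_pos v (hiter' _ j)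
  have hinf : ∀ w : InfinitePlace M, Real.log (w W.det) ≤
      ∑ i, (Real.log (wt (nmi w) (act F) la (P i)) + Real.log (wt (nmi w) (act F) lb (P' i))) +
        Real.log (Fintype.card (Fin r)).factorial := by
    intro w
    have h1 : w W.det ≤ (Fintype.card (Fin r)).factorial *
        ∏ i, (wt (nmi w) (act F) la (P i) * wt (nmi w) (act F) lb (P' i)) := by
      apply det_rows_le_inf
      intro i j
      simp only [hW, Matrix.of_apply]
      rw [map_mul]
      refine mul_le_mul ?_ ?_ (by positivity) (wa w i).le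
      · exact abs_le_wt (w.1.toMonoidWithZeroHom) (fun x => w.1.nonneg x)
          (fun x j => le_nmi w x j) (fun x => nmi_nonneg w x) la (hφG j) (P i)
      · exact abs_le_wt (w.1.toMonoidWithZeroHom) (fun x => w.1.nonneg x)
          (fun x j => le_nmi w x j) (fun x => nmi_nonneg w x) lb (hψG j) (P' i)
    have h2 : 0 < w W.det := InfinitePlace.pos_iff.mpr hdet
    have h3 := Real.log_le_log h2 h1
    have h4 : (0 : ℝ) < ((Fintype.card (Fin r)).factorial : ℝ) := by
      exact_mod_cast Nat.factorial_pos _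
    rw [Real.log_mul h4.ne' (Finset.prod_pos fun k _ => mul_pos (wa w k) (wb w k)).ne',
      Real.log_prod (fun k _ => (mul_pos (wa w k) (wb w k)).ne')] at h3
    have h5 : ∑ i, Real.log (wt (nmi w) (act F) la (P i) * wt (nmi w) (act F) lb (P' i)) =
        ∑ i, (Real.log (wt (nmi w) (act F) la (P i)) + Real.log (wt (nmi w) (act F) lb (P' i))) :=
      Finset.sum_congr rfl fun i _ => Real.log_mul (wa w i).ne' (wb w i).ne'
    rw [h5] at h3
    linarith
  have hfin0 : ∀ v : FinitePlace M, ∑ i, Real.log (wt (nmf v) (act F) la (P i) *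
      wt (nmf v) (act F) lb (P' i)) =
        ∑ i, (Real.log (wt (nmf v) (act F) la (P i)) + Real.log (wt (nmf v) (act F) lb (P' i))) :=
    fun v => Finset.sum_congr rfl fun i _ => Real.log_mul (va v i).ne' (vb v i).ne'
  have hfin : ∀ v : FinitePlace M, Real.log (v W.det) ≤
      ∑ i, (Real.log (wt (nmf v) (act F) la (P i)) +
        Real.log (wt (nmf v) (act F) lb (P' i))) := by
    intro v
    have h1 : v W.det ≤ ∏ i, (wt (nmf v) (act F) la (P i) * wt (nmf v) (act F) lb (P' i)) := by
      apply det_rows_le v _ _ (fun k => (mul_pos (va v k) (vb v k)).le)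
      intro i j
      simp only [hW, Matrix.of_apply]
      rw [map_mul]
      refine mul_le_mul ?_ ?_ (v_nonneg v _) (va v i).le
      · exact abs_le_wt (v.1.toMonoidWithZeroHom) (fun x => v.1.nonneg x)
          (fun x j => le_nmf v x j) (fun x => nmf_nonneg v x) la (hφG j) (P i)
      · exact abs_le_wt (v.1.toMonoidWithZeroHom) (fun x => v.1.nonneg x)
          (fun x j => le_nmf v x j) (fun x => nmf_nonneg v x) lb (hψG j) (P' i)
    have h2 : 0 < v W.det := FinitePlace.pos_iff.mpr hdet
    have h3 := Real.log_le_log h2 h1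
    rwa [Real.log_prod (fun k _ => (mul_pos (va v k) (vb v k)).ne'), hfin0] at h3
  have hfinT : ∀ v ∈ T, Real.log (v W.det) ≤
      ∑ i, (Real.log (wt (nmf v) (act F) la (P i)) + Real.log (wt (nmf v) (act F) lb (P' i))) -
        Real.log (nv v) * (s * (r - 2 * s * (m + Q * n + 1) : ℕ)) := by
    intro v hv
    have hR := hT v hv
    have h1 := two_gain hR hF la lb φ ψ hφG hψG P hP0 (hfr v hv) s
    have hW1 : (Matrix.of fun i j => aeval (P i) (φ j) * aeval (fun t => τ (P i t)) (ψ j)) = W :=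
      rfl
    rw [hW1, hl1, hm1, Fintype.card_fin] at h1
    have h2 : 0 < v W.det := FinitePlace.pos_iff.mpr hdet
    have h3 := Real.log_le_log h2 h1
    have h4 : ∏ i, (nmf v (P i) ^ m * nmf v (fun t => τ (P i t)) ^ n) =
        ∏ i, (wt (nmf v) (act F) la (P i) * wt (nmf v) (act F) lb (P' i)) := by
      refine Finset.prod_congr rfl fun i _ => ?_
      rw [hR.wt_eq la (P i), hR.wt_eq lb (P' i), hl1, hm1]
    rw [h4, Real.log_mul (Finset.prod_pos fun i _ => mul_pos (va v i) (vb v i)).ne'
      (pow_pos (pow_pos (Real.exp_pos _) _) _).ne',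
      Real.log_prod (fun k _ => (mul_pos (va v k) (vb v k)).ne'), hfin0, Real.log_pow,
      Real.log_pow, Real.log_exp] at h3
    refine h3.trans (le_of_eq ?_)
    push_cast
    ring
  have hgs1 : HasGS (fun w => ∑ i, (Real.log (wt (nmi w) (act F) la (P i)) +
        Real.log (wt (nmi w) (act F) lb (P' i))))
      (fun v => ∑ i, (Real.log (wt (nmf v) (act F) la (P i)) +
        Real.log (wt (nmf v) (act F) lb (P' i)))) (∑ i, (HL F la (P i) + HL F lb (P' i))) :=
    HasGS.sum Finset.univ fun k _ => (HasGS.wt la (hiter k)).add (HasGS.wt lb (hiter' k))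
  have hmain := HasGS_le_gain (HasGS.prod hdet) hgs1
    (c := Real.log (Fintype.card (Fin r)).factorial) hinf T
    (fun v => Real.log (nv v) * (s * (r - 2 * s * (m + Q * n + 1) : ℕ))) (fun v _ => hfin v)
    hfinT
  rw [Fintype.card_fin, ← Finset.sum_mul] at hmain
  -- the right hand side
  have hD := finrank_pos' (L := M)
  have hr' : (1 : ℝ) ≤ r := by exact_mod_cast hr1
  have hlsum : ∀ (l : List ℕ) (N : ℕ), (∀ r ∈ l, r ≤ c + q) → l.length ≤ 1 + Nat.log 2 N →
      (l.sum : ℝ) ≤ (c + q : ℕ) * (1 + Nat.log 2 N : ℕ) := by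
    intro l N h3 h4
    have h5 : l.sum ≤ l.length * (c + q) := by
      have := List.sum_le_card_nsmul l (c + q) h3
      simpa using this
    have h6 : l.length * (c + q) ≤ (c + q) * (1 + Nat.log 2 N) := by
      rw [mul_comm]
      exact Nat.mul_le_mul_left _ h4
    exact_mod_cast h5.trans h6
  have hHL : ∀ i, HL F la (P i) ≤ finrank ℚ M * (m * H +
      hC A a * ((c + q : ℕ) * (1 + Nat.log 2 m : ℕ))) := by
    intro i
    refine (hB.HL_le hq la (hP0 i)).trans ?_
    rw [hl1]
    have h3 : (m : ℝ) * canH F q (P i) ≤ m * H :=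
      mul_le_mul_of_nonneg_left (hH _) (Nat.cast_nonneg _)
    have h4 : hC A a * la.sum ≤ hC A a * ((c + q : ℕ) * (1 + Nat.log 2 m : ℕ)) :=
      mul_le_mul_of_nonneg_left (hlsum la m hl3 hl4) hB.hC_nonneg
    exact mul_le_mul_of_nonneg_left (by linarith) hD.le
  have hHL' : ∀ i, HL F lb (P' i) ≤ finrank ℚ M * (n * H +
      hC A a * ((c + q : ℕ) * (1 + Nat.log 2 n : ℕ))) := by
    intro i
    refine (hB.HL_le hq lb (hP'0 i)).trans ?_
    rw [hm1]
    have h0 : canH F q (P' i) = canH F q (P i) :=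
      canH_hom (τ : M →ₐ[K] M) F q (P i)
    have h3 : (n : ℝ) * canH F q (P' i) ≤ n * H := by
      rw [h0]
      exact mul_le_mul_of_nonneg_left (hH _) (Nat.cast_nonneg _)
    have h4 : hC A a * lb.sum ≤ hC A a * ((c + q : ℕ) * (1 + Nat.log 2 n : ℕ)) :=
      mul_le_mul_of_nonneg_left (hlsum lb n hm3 hm4) hB.hC_nonneg
    exact mul_le_mul_of_nonneg_left (by linarith) hD.le
  have hsum : ∑ i, (HL F la (P i) + HL F lb (P' i)) ≤ r * (finrank ℚ M * (m * H +
      hC A a * ((c + q : ℕ) * (1 + Nat.log 2 m : ℕ))) + finrank ℚ M * (n * H +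
      hC A a * ((c + q : ℕ) * (1 + Nat.log 2 n : ℕ)))) := by
    have h7 := Finset.sum_le_sum (fun k (_ : k ∈ (Finset.univ : Finset (Fin r))) =>
      add_le_add (hHL k) (hHL' k))
    rwa [Finset.sum_const, Finset.card_univ, Fintype.card_fin, nsmul_eq_mul] at h7
  have hfac : Real.log r.factorial ≤ r * Real.log r := by
    have h2 : (r.factorial : ℝ) ≤ (r : ℝ) ^ r := by exact_mod_cast Nat.factorial_le_pow r
    have h3 := Real.log_le_log (by exact_mod_cast Nat.factorial_pos r) h2
    rwa [Real.log_pow] at h3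
  have h5 := mul_le_mul_of_nonneg_left hfac hD.le
  calc _ ≤ ∑ i, (HL F la (P i) + HL F lb (P' i)) + finrank ℚ M * Real.log r.factorial := by
        linarith
    _ ≤ r * (finrank ℚ M * (m * H + hC A a * ((c + q : ℕ) * (1 + Nat.log 2 m : ℕ))) +
        finrank ℚ M * (n * H + hC A a * ((c + q : ℕ) * (1 + Nat.log 2 n : ℕ)))) +
        finrank ℚ M * (r * Real.log r) := by linarith
    _ = _ := by ring

/-- a relation, if the rank is not maximal -/
lemma exists_rel {x y : ι → M} {m n : ℕ}
    (h : finrank M (E2 K (fun i => ![x i, 1]) (fun i => ![y i, 1]) m n) < (m + 1) * (n + 1)) :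
    ∃ G : Polynomial (Polynomial M), G ≠ 0 ∧ G.natDegree ≤ n ∧ XD m G ∧
      ∀ i, G.evalEval (x i) (y i) = 0 := by
  set E := E2 K (fun i => ![x i, 1]) (fun i => ![y i, 1]) m n with hE
  have hmem : ∀ ij : Fin (m + 1) × Fin (n + 1),
      (fun i => x i ^ (ij.1 : ℕ) * y i ^ (ij.2 : ℕ)) ∈ E := by
    intro ij
    refine Submodule.subset_span ⟨X 0 ^ (ij.1 : ℕ) * X 1 ^ (m - (ij.1 : ℕ)),
      X 0 ^ (ij.2 : ℕ) * X 1 ^ (n - (ij.2 : ℕ)), ?_, ?_, ?_⟩
    · have h1 := (isHomogeneous_X_pow (R := K) (0 : Fin (1 + 1)) (ij.1 : ℕ)).mul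
        (isHomogeneous_X_pow (R := K) (1 : Fin (1 + 1)) (m - (ij.1 : ℕ)))
      have h2 : (ij.1 : ℕ) + (m - (ij.1 : ℕ)) = m := by
        have := ij.1.2
        omega
      rwa [h2] at h1
    · have h1 := (isHomogeneous_X_pow (R := K) (0 : Fin (1 + 1)) (ij.2 : ℕ)).mul
        (isHomogeneous_X_pow (R := K) (1 : Fin (1 + 1)) (n - (ij.2 : ℕ)))
      have h2 : (ij.2 : ℕ) + (n - (ij.2 : ℕ)) = n := by
        have := ij.2.2
        omega
      rwa [h2] at h1
    · funext i
      simp
  set Λ : (Fin (m + 1) × Fin (n + 1) → M) →ₗ[M] (ι → M) :=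
    { toFun := fun u i => ∑ ij, u ij * (x i ^ (ij.1 : ℕ) * y i ^ (ij.2 : ℕ))
      map_add' := fun u u' => by
        funext i
        simp only [Pi.add_apply]
        rw [← Finset.sum_add_distrib]
        exact Finset.sum_congr rfl fun ij _ => by ring
      map_smul' := fun r u => by
        funext i
        simp only [Pi.smul_apply, smul_eq_mul, RingHom.id_apply]
        rw [Finset.mul_sum]
        exact Finset.sum_congr rfl fun ij _ => by ring } with hΛ
  have hΛE : ∀ u, Λ u ∈ E := by
    intro u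
    have h1 : Λ u = ∑ ij, u ij • (fun i => x i ^ (ij.1 : ℕ) * y i ^ (ij.2 : ℕ)) := by
      funext i
      rw [Finset.sum_apply]
      rfl
    rw [h1]
    exact Submodule.sum_mem _ fun ij _ => Submodule.smul_mem _ _ (hmem ij)
  have hker : LinearMap.ker (Λ.codRestrict E hΛE) ≠ ⊥ := by
    apply LinearMap.ker_ne_bot_of_finrank_lt
    rw [finrank_fintype_fun_eq_card, Fintype.card_prod, Fintype.card_fin, Fintype.card_fin]
    exact h
  obtain ⟨u, hu, hu0⟩ := (Submodule.ne_bot_iff _).mp hker
  rw [LinearMap.ker_codRestrict, LinearMap.mem_ker] at hu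
  refine ⟨bp u, fun h0 => hu0 (bp_eq_zero h0), ?_, ?_, fun i => ?_⟩
  · have := bp_natDegree u
    simpa using this
  · have := bp_XD u
    simpa using this
  · rw [bp_evalEval]
    exact congrFun hu i

end

end Pool.Agent.R829.BG
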