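import Mathlib
import Pool.Agent.R829.BG.Cls
import Pool.Agent.R829.DL.Reg

/-!
Numerical consequences of the two inequalities.
-/

set_option autoImplicit false
set_option linter.unusedSectionVars false

namespace Pool.Agent.R829.BG

open NumberField Module Filter Topology
open Pool.Agent.W238.Leh
open Pool.Agent.H627.LP hiding det_ineq det_ineq' local_gain
open Pool.Agent.H627.LR (GR)
open Pool.Agent.H627.LU (Classes)
open Pool.Agent.H420R3 (mi nv v_smul nv_pos v_lt_one_iff log_nv_pos)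

noncomputable section

lemma natlog_le {n : ℕ} (hn : n ≠ 0) : (Nat.log 2 n : ℝ) ≤ Real.log n / Real.log 2 := by
  have h2 : (0 : ℝ) < Real.log 2 := Real.log_pos (by norm_num)
  rw [le_div_iff₀ h2]
  have h3 : ((2 ^ Nat.log 2 n : ℕ) : ℝ) ≤ n := by exact_mod_cast Nat.pow_log_le_self 2 hn
  have h4 := Real.log_le_log (by positivity) h3
  rw [Nat.cast_pow, Real.log_pow] at h4
  exact_mod_cast h4

lemma eight_sq_lt {j : ℕ} (hj : 10 ≤ j) : 8 * j ^ 2 < 2 ^ j := by
  induction j, hj using Nat.le_induction with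
  | base => norm_num
  | succ n hn ih =>
    have h1 : 8 * (n + 1) ^ 2 ≤ 2 * (8 * n ^ 2) := by nlinarith
    have h2 : 2 ^ (n + 1) = 2 * 2 ^ n := by ring
    omega

/-- choice of the parameters for the first step -/
lemma exists_par {ω C : ℝ} (hω : 0 < ω) (hC : 0 ≤ C) {N₀ : ℕ} (hN : 2 ≤ N₀) :
    ∃ j : ℕ, 8 * j ^ 2 < N₀ ^ j ∧ 1 ≤ j ∧
      1 + C * (1 + Nat.log 2 (N₀ ^ j * (8 * j ^ 2)) : ℕ) + C * (1 + Nat.log 2 (8 * j ^ 2) : ℕ) +
        Real.log (((N₀ ^ j * (8 * j ^ 2) + 1) * (8 * j ^ 2 + 1) : ℕ)) <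
        (j ^ 2 : ℕ) * ω / 2 := by
  have hN' : (2 : ℝ) ≤ N₀ := by exact_mod_cast hN
  have hl : 0 < Real.log N₀ := Real.log_pos (by linarith)
  have h2 : (0 : ℝ) < Real.log 2 := Real.log_pos (by norm_num)
  obtain ⟨l, hldef⟩ : ∃ l, l = Real.log N₀ := ⟨_, rfl⟩
  rw [← hldef] at hl
  obtain ⟨C', hC'⟩ : ∃ C', C' = 1 + 2 * C + 3 * C * l / Real.log 2 + 3 * l := ⟨_, rfl⟩
  have hC'0 : 0 < C' := by
    rw [hC']
    positivity
  obtain ⟨j, hj⟩ : ∃ j, j = max 10 (⌊2 * C' / ω⌋₊ + 1) := ⟨_, rfl⟩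
  have hj10 : 10 ≤ j := hj ▸ le_max_left _ _
  have hjC : 2 * C' / ω < j := by
    have h3 : 2 * C' / ω < ((⌊2 * C' / ω⌋₊ + 1 : ℕ) : ℝ) := by
      push_cast
      exact Nat.lt_floor_add_one _
    refine h3.trans_le ?_
    rw [hj]
    exact_mod_cast le_max_right _ _
  have hjN : 8 * j ^ 2 < N₀ ^ j := (eight_sq_lt hj10).trans_le (Nat.pow_le_pow_left hN j)
  refine ⟨j, hjN, by omega, ?_⟩
  have hj1 : (1 : ℝ) ≤ j := by
    have : 1 ≤ j := by omega
    exact_mod_cast this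
  have hb0 : 8 * j ^ 2 ≠ 0 := by
    have : 0 < j ^ 2 := by positivity
    omega
  have hQ0 : N₀ ^ j ≠ 0 := by
    have : 0 < N₀ ^ j := Nat.pow_pos (by omega)
    omega
  obtain ⟨b, hb⟩ : ∃ b, b = 8 * j ^ 2 := ⟨_, rfl⟩
  obtain ⟨Q, hQ⟩ : ∃ Q, Q = N₀ ^ j := ⟨_, rfl⟩
  rw [← hb, ← hQ] at hjN
  rw [← hb] at hb0
  rw [← hQ] at hQ0
  rw [← hb, ← hQ]
  have hlogQ : Real.log Q = j * l := by
    rw [hQ, Nat.cast_pow, Real.log_pow, hldef]
  have hQ1 : (1 : ℝ) ≤ Q := by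
    have : 1 ≤ Q := by omega
    exact_mod_cast this
  have hbQ : (b : ℝ) ≤ Q := by exact_mod_cast hjN.le
  have hb1 : (1 : ℝ) ≤ b := by
    have : 1 ≤ b := by omega
    exact_mod_cast this
  have e1 : (Nat.log 2 b : ℝ) ≤ j * l / Real.log 2 := by
    refine (natlog_le hb0).trans ?_
    rw [← hlogQ]
    exact div_le_div_of_nonneg_right (Real.log_le_log (by linarith) hbQ) h2.le
  have e2 : (Nat.log 2 (Q * b) : ℝ) ≤ 2 * (j * l) / Real.log 2 := by
    refine (natlog_le (Nat.mul_ne_zero hQ0 hb0)).trans ?_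
    refine div_le_div_of_nonneg_right ?_ h2.le
    push_cast
    rw [Real.log_mul (by linarith) (by linarith), hlogQ]
    have := Real.log_le_log (by linarith) hbQ
    rw [hlogQ] at this
    linarith
  have e3 : Real.log (((Q * b + 1) * (b + 1) : ℕ)) ≤ 3 * (j * l) := by
    have h3 : (Q * b + 1) * (b + 1) ≤ Q * Q * Q := by
      have h4 : b + 1 ≤ Q := hjN
      have h5 : Q * b + 1 ≤ Q * Q := by
        have h6 : Q * (b + 1) ≤ Q * Q := Nat.mul_le_mul_left _ h4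
        have h7 : Q * (b + 1) = Q * b + Q := by ring
        omega
      exact Nat.mul_le_mul h5 h4
    have h4 : (((Q * b + 1) * (b + 1) : ℕ) : ℝ) ≤ (Q : ℝ) * Q * Q := by exact_mod_cast h3
    have h5 : (0 : ℝ) < (((Q * b + 1) * (b + 1) : ℕ) : ℝ) := by positivity
    refine (Real.log_le_log h5 h4).trans (le_of_eq ?_)
    have h6 : (Q : ℝ) ≠ 0 := by linarith
    rw [Real.log_mul (mul_ne_zero h6 h6) h6, Real.log_mul h6 h6, hlogQ]
    ring
  have e4 : 1 + C * (1 + Nat.log 2 (Q * b) : ℕ) + C * (1 + Nat.log 2 b : ℕ) +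
      Real.log (((Q * b + 1) * (b + 1) : ℕ)) ≤ j * C' := by
    push_cast at e3 ⊢
    have h3 := mul_le_mul_of_nonneg_left e1 hC
    have h4 := mul_le_mul_of_nonneg_left e2 hC
    have h5 : j * C' = j + 2 * C * j + (C * (j * l / Real.log 2) +
        C * (2 * (j * l) / Real.log 2)) + 3 * (j * l) := by
      rw [hC']
      ring
    rw [h5]
    nlinarith [mul_nonneg hC (sub_nonneg.mpr hj1)]
  refine lt_of_le_of_lt e4 ?_
  rw [div_lt_iff₀ hω] at hjC
  push_cast
  nlinarith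

/-- choice of the length -/
lemma exists_R0 {δ C : ℝ} (hδ : 0 < δ) (hC : 0 ≤ C) :
    ∃ R₀ : ℕ, ∀ r : ℕ, R₀ ≤ r → C * (1 + Nat.log 2 r : ℕ) + Real.log r < δ * r := by
  have h2 : (0 : ℝ) < Real.log 2 := Real.log_pos (by norm_num)
  obtain ⟨C', hC'⟩ : ∃ C', C' = C / Real.log 2 + 1 := ⟨_, rfl⟩
  have hC'0 : 0 < C' := by
    rw [hC']
    positivity
  have h3 : ∀ᶠ x : ℝ in atTop, ‖Real.log x‖ ≤ δ / (2 * C') * ‖x‖ :=
    Real.isLittleO_log_id_atTop.def (by positivity)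
  have h4 : ∀ᶠ x : ℝ in atTop, C < δ / 2 * x :=
    (tendsto_id.const_mul_atTop (by positivity)).eventually_gt_atTop C
  have h5 := tendsto_natCast_atTop_atTop (R := ℝ)
  obtain ⟨R, hR⟩ := eventually_atTop.mp ((h5.eventually h3).and (h5.eventually h4))
  refine ⟨max R 1, fun r hr => ?_⟩
  have hr1 : 1 ≤ r := (le_max_right _ _).trans hr
  obtain ⟨h6, h7⟩ := hR r ((le_max_left _ _).trans hr)
  have hr1' : (1 : ℝ) ≤ r := by exact_mod_cast hr1
  have hl0 : 0 ≤ Real.log r := Real.log_nonneg hr1'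
  rw [Real.norm_of_nonneg hl0, Real.norm_of_nonneg (by linarith)] at h6
  have h8 := natlog_le (n := r) (by omega)
  have h9 := mul_le_mul_of_nonneg_left h8 hC
  push_cast
  have h10 : C' * Real.log r ≤ δ / 2 * r := by
    have h11 := mul_le_mul_of_nonneg_left h6 hC'0.le
    refine h11.trans (le_of_eq ?_)
    field_simp
  have h12 : C' * Real.log r = C * (Real.log r / Real.log 2) + Real.log r := by
    rw [hC']
    ring
  have h13 : δ * r = δ / 2 * r + δ / 2 * r := by ring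
  rw [h13]
  nlinarith

variable {K : Type} [Field K] [NumberField K] {M : Type} [Field M] [NumberField M] [Algebra K M]
  {ι : Type} [Fintype ι] [DecidableEq ι]
variable {F : Fin (1 + 1) → MvPolynomial (Fin (1 + 1)) K} {q c a : ℕ} {A : ℝ}

lemma finrank_E2_le (x y : ι → M) (m n : ℕ) :
    finrank M (E2 K (fun i => ![x i, 1]) (fun i => ![y i, 1]) m n) ≤ (m + 1) * (n + 1) := by
  classical
  set w : Fin (m + 1) × Fin (n + 1) → (ι → M) :=
    fun kl i => x i ^ (kl.1 : ℕ) * y i ^ (kl.2 : ℕ) with hw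
  have hle : E2 K (fun i => ![x i, 1]) (fun i => ![y i, 1]) m n ≤
      Submodule.span M (Set.range w) := by
    unfold E2
    rw [Submodule.span_le]
    rintro _ ⟨φ, ψ, hφ, hψ, rfl⟩
    rw [SetLike.mem_coe]
    set α := dh 1 (MvPolynomial.map (algebraMap K M) φ) with hα
    set β := dh 1 (MvPolynomial.map (algebraMap K M) ψ) with hβ
    have hαd : α.natDegree ≤ m := dh_natDegree 1 (hφ.map _)
    have hβd : β.natDegree ≤ n := dh_natDegree 1 (hψ.map _)
    have ha : ∀ i, MvPolynomial.aeval ![x i, 1] φ = α.eval (x i) := by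
      intro i
      rw [aeval_eq_eval_map, ← dh_eval 1 _ (z := ![x i, 1]) rfl]
      rfl
    have hb : ∀ i, MvPolynomial.aeval ![y i, 1] ψ = β.eval (y i) := by
      intro i
      rw [aeval_eq_eval_map, ← dh_eval 1 _ (z := ![y i, 1]) rfl]
      rfl
    have h1 : (fun i => MvPolynomial.aeval ![x i, 1] φ * MvPolynomial.aeval ![y i, 1] ψ) =
        ∑ k : Fin (m + 1), ∑ l : Fin (n + 1), (α.coeff k * β.coeff l) • w (k, l) := by
      funext i
      rw [ha, hb, Polynomial.eval_eq_sum_range' (Nat.lt_succ_of_le hαd),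
        Polynomial.eval_eq_sum_range' (Nat.lt_succ_of_le hβd), Finset.sum_mul_sum,
        Finset.sum_apply, ← Fin.sum_univ_eq_sum_range (fun k => ∑ l ∈ Finset.range (n + 1),
          α.coeff k * x i ^ k * (β.coeff l * y i ^ l))]
      refine Finset.sum_congr rfl fun k _ => ?_
      rw [Finset.sum_apply, ← Fin.sum_univ_eq_sum_range (fun l =>
          α.coeff k * x i ^ (k : ℕ) * (β.coeff l * y i ^ l))]
      refine Finset.sum_congr rfl fun l _ => ?_
      simp only [hw, Pi.smul_apply, smul_eq_mul]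
      ring
    rw [h1]
    exact Submodule.sum_mem _ fun k _ => Submodule.sum_mem _ fun l _ =>
      Submodule.smul_mem _ _ (Submodule.subset_span ⟨_, rfl⟩)
  refine (Submodule.finrank_mono hle).trans ((finrank_range_le_card w).trans ?_)
  rw [Fintype.card_prod, Fintype.card_fin, Fintype.card_fin]

/-- **the first step**: there is a relation -/
theorem step_zero (hB : Bds F q A a) (hq : 2 ≤ q) (hF : ∀ i, (F i).IsHomogeneous q)
    (hc : ∀ m, c + q ≤ m → ∀ p : MvPolynomial (Fin (1 + 1)) K, p.IsHomogeneous m →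
      p ∈ Ideal.span (Set.range F)) {τ : Gal(M/K)} {Q s : ℕ}
    (T : Finset (FinitePlace M)) (hT : ∀ v ∈ T, GR v F q) (hfr : ∀ v ∈ T, FrobAt v τ Q)
    {ω : ℝ} (hω : (finrank ℚ M : ℝ) * ω ≤ ∑ v ∈ T, Real.log (nv v)) (hω0 : 0 < ω)
    {H : ℝ} (x : ι → M) (hH : ∀ i, canH F q ![x i, 1] ≤ H)
    (hH1 : ((Q * (8 * s) : ℕ) + (8 * s : ℕ)) * H ≤ 1)
    (hs : 1 + hC A a * (c + q : ℕ) * (1 + Nat.log 2 (Q * (8 * s)) : ℕ) +
      hC A a * (c + q : ℕ) * (1 + Nat.log 2 (8 * s) : ℕ) +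
        Real.log (((Q * (8 * s) + 1) * (8 * s + 1) : ℕ)) < s * ω / 2) :
    ∃ G : Polynomial (Polynomial M), G ≠ 0 ∧ G.natDegree ≤ 8 * s ∧ XD (Q * (8 * s)) G ∧
      ∀ i, G.evalEval (x i) (τ (x i)) = 0 := by
  obtain ⟨b, hb⟩ : ∃ b, b = 8 * s := ⟨_, rfl⟩
  obtain ⟨α, hα⟩ : ∃ α, α = Q * (8 * s) := ⟨_, rfl⟩
  rw [← hα, ← hb]
  apply exists_rel (K := K) (ι := ι)
  by_contra hcon
  push Not at hcon
  have hp : ∀ i : ι, (![x i, 1] : Fin (1 + 1) → M) ≠ 0 := by
    intro i h0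
    have := congrFun h0 1
    simp at this
  have hτp : (fun (i : ι) t => τ ((![x i, 1] : Fin (1 + 1) → M) t)) =
      fun i => ![τ (x i), 1] := by
    funext i t
    fin_cases t
    · rfl
    · exact map_one τ
  have hr : finrank M (E2 K (fun i => ![x i, 1]) (fun i => ![τ (x i), 1]) α b) =
      (α + 1) * (b + 1) := le_antisymm (finrank_E2_le _ _ _ _) hcon
  have hmain := two_ineq hB hq hF hc hp (τ := τ) (Q := Q) T hT hfr hH α b s
  rw [hτp, hr] at hmain
  have h1 := hmain (by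
    have : 0 < (α + 1) * (b + 1) := by positivity
    omega)
  obtain ⟨r, hrdef⟩ : ∃ r, r = (α + 1) * (b + 1) := ⟨_, rfl⟩
  rw [← hα, ← hb, ← hrdef] at hs
  rw [← hrdef] at h1
  rw [← hα, ← hb] at hH1
  have h2 : r ≤ 2 * (r - 2 * s * (α + Q * b + 1)) := by
    have h3 : 2 * (2 * s * (α + Q * b + 1)) ≤ r := by
      rw [hrdef, hα, hb]
      nlinarith [Nat.zero_le (Q * s), Nat.zero_le s, Nat.zero_le (Q * s * s)]
    omega
  have h2' : (r : ℝ) ≤ 2 * ((r - 2 * s * (α + Q * b + 1) : ℕ) : ℝ) := by exact_mod_cast h2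
  have hr0 : (0 : ℝ) < r := by
    have : 0 < r := by
      rw [hrdef]
      positivity
    exact_mod_cast this
  have hD := finrank_pos' (L := M)
  have h4 : (finrank ℚ M : ℝ) * (r * (s * ω / 2)) ≤ (∑ v ∈ T, Real.log (nv v)) *
      (s * ((r - 2 * s * (α + Q * b + 1) : ℕ) : ℝ)) := by
    have hs0 : (0 : ℝ) ≤ s := Nat.cast_nonneg _
    calc (finrank ℚ M : ℝ) * (r * (s * ω / 2)) = (finrank ℚ M : ℝ) * ω * (s * (r / 2)) := by ring
      _ ≤ (∑ v ∈ T, Real.log (nv v)) * (s * ((r - 2 * s * (α + Q * b + 1) : ℕ) : ℝ)) := by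
        apply mul_le_mul hω
        · apply mul_le_mul_of_nonneg_left _ hs0
          linarith
        · positivity
        · exact (mul_pos hD hω0).le.trans hω
  have h5 := h4.trans h1
  have h6 := le_of_mul_le_mul_left h5 hD
  have h7 := le_of_mul_le_mul_left h6 hr0
  have h8 : (s : ℝ) * ω / 2 ≤ 1 + hC A a * (c + q : ℕ) * (1 + Nat.log 2 α : ℕ) +
      hC A a * (c + q : ℕ) * (1 + Nat.log 2 b : ℕ) + Real.log r := by
    refine h7.trans ?_
    have h9 : hC A a * (((c + q : ℕ) : ℝ) * ((1 + Nat.log 2 α : ℕ) : ℝ)) =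
        hC A a * ((c + q : ℕ) : ℝ) * ((1 + Nat.log 2 α : ℕ) : ℝ) := by ring
    have h10 : hC A a * (((c + q : ℕ) : ℝ) * ((1 + Nat.log 2 b : ℕ) : ℝ)) =
        hC A a * ((c + q : ℕ) : ℝ) * ((1 + Nat.log 2 b : ℕ) : ℝ) := by ring
    rw [h9, h10]
    linarith
  linarith

/-- **the last step**: a long window of small points in few residue classes does not exist -/
theorem step_last (hB : Bds F q A a) (hq : 2 ≤ q) (hF : ∀ i, (F i).IsHomogeneous q)
    (hc : ∀ m, c + q ≤ m → ∀ p : MvPolynomial (Fin (1 + 1)) K, p.IsHomogeneous m →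
      p ∈ Ideal.span (Set.range F))
    (T : Finset (FinitePlace M)) (hT : ∀ v ∈ T, GR v F q)
    {ω : ℝ} (hω : (finrank ℚ M : ℝ) * ω ≤ ∑ v ∈ T, Real.log (nv v)) (hω0 : 0 < ω)
    {H : ℝ} (x : ι → M) (hinj : Function.Injective x) (hH : ∀ i, canH F q ![x i, 1] ≤ H)
    {t : ℕ} (ht : 1 ≤ t) (hH0 : 0 ≤ H) (hH1 : 32 * t * H ≤ ω)
    (hcl : ∀ v ∈ T, Classes v (fun i => ![x i, 1]) ∅ t (Real.log (nv v)))
    (hι : 8 * t ≤ Fintype.card ι)
    (hs : hC A a * (c + q : ℕ) * (1 + Nat.log 2 (Fintype.card ι) : ℕ) +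
      Real.log (Fintype.card ι) < ω / (32 * t) * Fintype.card ι) : False := by
  obtain ⟨r, hr⟩ : ∃ r, r = Fintype.card ι := ⟨_, rfl⟩
  rw [← hr] at hι hs
  have hr1 : 1 ≤ r := by omega
  have hp : ∀ i : ι, (![x i, 1] : Fin (1 + 1) → M) ≠ 0 := by
    intro i h0
    have := congrFun h0 1
    simp at this
  have hp1 : ∀ i : ι, (![x i, 1] : Fin (1 + 1) → M) 1 = 1 := fun i => rfl
  have hinj' : Function.Injective (fun i : ι => (![x i, 1] : Fin (1 + 1) → M)) := by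
    intro i j hij
    apply hinj
    exact congrFun hij 0
  have hfr : finrank M (EL K (fun i : ι => (![x i, 1] : Fin (1 + 1) → M)) (r - 1)) = r := by
    have h1 := (Pool.Agent.R829.DL.growth_line (K := K) hp1 hinj' (m := r - 1) (by omega)).1
    omega
  obtain ⟨s, hsdef⟩ : ∃ s, s = r / (4 * t) := ⟨_, rfl⟩
  have hfs : finrank M (EL K (fun i : ι => (![x i, 1] : Fin (1 + 1) → M)) (1 * s)) ≤ s + 1 := by
    have := finrank_EL_le (K := K) hp1 (1 * s)
    rw [pow_one, one_mul] at this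
    rw [one_mul]
    exact this
  have hmain := Pool.Agent.H627.LU.hilb_ineq hB hq hF hc hp T hT (fun v => Real.log (nv v))
    (fun v _ => log_nv_pos v) (fun _ => ∅) (t := t) hcl (w₀ := ∑ v ∈ T, Real.log (nv v))
    (fun i => by simp) hH (r - 1) s (by rw [hfr]; omega)
  rw [hfr] at hmain
  -- the parameter
  have h1 : s * (4 * t) ≤ r := hsdef ▸ Nat.div_mul_le_self r (4 * t)
  have h2 : r < (s + 1) * (4 * t) := by
    rw [hsdef]
    have := Nat.lt_div_mul_add (a := r) (b := 4 * t) (by omega)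
    calc r < r / (4 * t) * (4 * t) + 4 * t := this
      _ = _ := by ring
  have hs1 : 1 ≤ s := by
    rw [hsdef, Nat.le_div_iff_mul_le (by omega)]
    omega
  have h3 : r ≤ 8 * t * s := by
    have : (s + 1) * (4 * t) ≤ (2 * s) * (4 * t) := Nat.mul_le_mul_right _ (by omega)
    calc r ≤ (2 * s) * (4 * t) := by omega
      _ = 8 * t * s := by ring
  have h4 : 2 * (t * (s + 1)) ≤ r := by
    have : 2 * (t * (s + 1)) ≤ s * (4 * t) := by nlinarith
    omega
  have hr0 : (0 : ℝ) < r := by exact_mod_cast hr1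
  have ht0 : (0 : ℝ) < t := by exact_mod_cast ht
  have hs0 : (0 : ℝ) < s := by exact_mod_cast hs1
  have hD := finrank_pos' (L := M)
  obtain ⟨W, hW⟩ : ∃ W, W = ∑ v ∈ T, Real.log (nv v) := ⟨_, rfl⟩
  rw [← hW] at hmain hω
  have hW0 : 0 < W := lt_of_lt_of_le (mul_pos hD hω0) hω
  have h4' : 2 * ((t : ℝ) * (s + 1)) ≤ r := by exact_mod_cast h4
  have h3' : (r : ℝ) ≤ 8 * t * s := by exact_mod_cast h3
  have hfs' : ((finrank M (EL K (fun i : ι => (![x i, 1] : Fin (1 + 1) → M)) (1 * s)) : ℕ) : ℝ) ≤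
      s + 1 := by exact_mod_cast hfs
  have h5 : (s : ℝ) * (W * (r / 2)) ≤ s * (r * W - W * (t * (finrank M (EL K (fun i : ι =>
      (![x i, 1] : Fin (1 + 1) → M)) (1 * s)) : ℕ))) := by
    apply mul_le_mul_of_nonneg_left _ hs0.le
    have h6 : (t : ℝ) * (finrank M (EL K (fun i : ι =>
      (![x i, 1] : Fin (1 + 1) → M)) (1 * s)) : ℕ) ≤ r / 2 := by
      have := mul_le_mul_of_nonneg_left hfs' ht0.le
      linarith
    have h7 := mul_le_mul_of_nonneg_left h6 hW0.le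
    linarith
  have h6 : (finrank ℚ M : ℝ) * (r * (s * ω / 2)) ≤ s * (W * (r / 2)) := by
    have h7 := mul_le_mul_of_nonneg_right hω (mul_nonneg hs0.le hr0.le)
    nlinarith
  have h7 := h6.trans (h5.trans hmain)
  have h8 := le_of_mul_le_mul_left h7 hD
  have h9 := le_of_mul_le_mul_left h8 hr0
  have h10 : (Nat.log 2 (r - 1) : ℝ) ≤ Nat.log 2 r := by
    exact_mod_cast Nat.log_mono_right (by omega)
  have hE : 0 ≤ hC A a * ((c + q : ℕ) : ℝ) := mul_nonneg hB.hC_nonneg (Nat.cast_nonneg _)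
  have h11 : hC A a * (((c + q : ℕ) : ℝ) * ((1 + Nat.log 2 (r - 1) : ℕ) : ℝ)) ≤
      hC A a * (c + q : ℕ) * (1 + Nat.log 2 r : ℕ) := by
    rw [← mul_assoc]
    apply mul_le_mul_of_nonneg_left _ hE
    push_cast
    linarith
  have h12 : ((r - 1 : ℕ) : ℝ) * H ≤ r * H := by
    apply mul_le_mul_of_nonneg_right _ hH0
    exact_mod_cast Nat.sub_le _ _
  have h13 : r * H ≤ ω / (32 * t) * r := by
    have : H ≤ ω / (32 * t) := by
      rw [le_div_iff₀ (by positivity)]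
      linarith
    rw [mul_comm]
    exact mul_le_mul_of_nonneg_right this hr0.le
  have h14 : ω / (16 * t) * r ≤ s * ω / 2 := by
    rw [div_mul_eq_mul_div, div_le_iff₀ (by positivity)]
    have := mul_le_mul_of_nonneg_left h3' hω0.le
    nlinarith
  have h15 : ω / (16 * t) * r = ω / (32 * t) * r + ω / (32 * t) * r := by
    field_simp
    norm_num
  linarith

end

end Pool.Agent.R829.BG
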