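import Mathlib
import Pool.Agent.R829.BG.Num
import Pool.Agent.W238.Leh.Final

/-!
The lower bound for canonical heights.
-/

set_option autoImplicit false
set_option linter.unusedSectionVars false

namespace Pool.Agent.R829.BG

open NumberField Module Filter Topology
open Pool.Agent.W238.Leh
open Pool.Agent.H627.LP hiding det_ineq det_ineq' local_gain
open Pool.Agent.H627.LR (GR)
open Pool.Agent.H627.LU (Classes)
open Pool.Agent.H420R3 (mi nv v_smul nv_pos v_lt_one_iff log_nv_pos)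

noncomputable section

variable {K : Type} [Field K] [NumberField K] {L : Type} [Field L] [NumberField L] [Algebra K L]
variable {F : Fin (1 + 1) → MvPolynomial (Fin (1 + 1)) K} {q c a : ℕ} {A : ℝ}

/-- affine coordinates of the iterates -/
def ax (F : Fin (1 + 1) → MvPolynomial (Fin (1 + 1)) K) (x : Fin (1 + 1) → L) (i : ℕ) : L :=
  ((act F)^[i] x) 0 / ((act F)^[i] x) 1

/-- the iterates which are not at infinity -/
def JJ (F : Fin (1 + 1) → MvPolynomial (Fin (1 + 1)) K) (x : Fin (1 + 1) → L) : Set ℕ :=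
  {i | ((act F)^[i] x) 1 ≠ 0}

lemma ax_vec {x : Fin (1 + 1) → L} {i : ℕ} (hi : i ∈ JJ F x) :
    (![ax F x i, 1] : Fin (1 + 1) → L) = (((act F)^[i] x) 1)⁻¹ • (act F)^[i] x := by
  have hi' : ((act F)^[i] x) 1 ≠ 0 := hi
  funext t
  fin_cases t
  · change ax F x i = (((act F)^[i] x) 1)⁻¹ * ((act F)^[i] x) 0
    unfold ax
    rw [mul_comm, div_eq_mul_inv]
  · change 1 = (((act F)^[i] x) 1)⁻¹ * ((act F)^[i] x) 1
    rw [inv_mul_cancel₀ hi']

lemma eval_dh (p : MvPolynomial (Fin (1 + 1)) K) (z : L) :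
    (dh 1 (MvPolynomial.map (algebraMap K L) p)).eval z = MvPolynomial.aeval ![z, 1] p := by
  rw [aeval_eq_eval_map, ← dh_eval 1 _ (z := ![z, 1]) rfl]
  rfl

lemma step_of {k D : ℕ} {H : Fin (1 + 1) → MvPolynomial (Fin (1 + 1)) K}
    (hH : ∀ i, (H i).IsHomogeneous k) (hk : k ≤ D) {j : ℕ} {x : Fin (1 + 1) → L}
    (hj : ∀ i, act H ((act F)^[i] x) = (act F)^[i + j] x) (τ : Gal(L/K)) :
    ∃ f g : Polynomial L, f.natDegree ≤ D ∧ g.natDegree ≤ D ∧
      ∀ i ∈ JJ F x, i + j ∈ JJ F x → g.eval (ax F x i) ≠ 0 ∧ g.eval (τ (ax F x i)) ≠ 0 ∧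
        ax F x (i + j) = f.eval (ax F x i) / g.eval (ax F x i) ∧
        τ (ax F x (i + j)) = f.eval (τ (ax F x i)) / g.eval (τ (ax F x i)) := by
  refine ⟨dh 1 (MvPolynomial.map (algebraMap K L) (H 0)),
    dh 1 (MvPolynomial.map (algebraMap K L) (H 1)), (dh_natDegree 1 ((hH 0).map _)).trans hk,
    (dh_natDegree 1 ((hH 1).map _)).trans hk, fun i hi hij => ?_⟩
  have hi' : ((act F)^[i] x) 1 ≠ 0 := hi
  have hij' : ((act F)^[i + j] x) 1 ≠ 0 := hij
  have h1 : ∀ t, MvPolynomial.aeval (![ax F x i, 1] : Fin (1 + 1) → L) (H t) =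
      ((((act F)^[i] x) 1)⁻¹) ^ k * ((act F)^[i + j] x) t := by
    intro t
    rw [ax_vec hi]
    have h2 := congrFun (act_smul hH ((((act F)^[i] x) 1)⁻¹) ((act F)^[i] x)) t
    rw [hj] at h2
    exact h2
  have h3 : ∀ t, MvPolynomial.aeval (![τ (ax F x i), 1] : Fin (1 + 1) → L) (H t) =
      τ (MvPolynomial.aeval (![ax F x i, 1] : Fin (1 + 1) → L) (H t)) := by
    intro t
    have h4 := congrFun (act_gal (F := H) τ (![ax F x i, 1] : Fin (1 + 1) → L)) t
    have h5 : (fun t => τ ((![ax F x i, 1] : Fin (1 + 1) → L) t)) = ![τ (ax F x i), 1] := by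
      funext t
      fin_cases t
      · rfl
      · exact map_one τ
    rw [h5] at h4
    exact h4
  have hpow : ((((act F)^[i] x) 1)⁻¹) ^ k ≠ 0 := pow_ne_zero _ (inv_ne_zero hi')
  have hne : MvPolynomial.aeval (![ax F x i, 1] : Fin (1 + 1) → L) (H 1) ≠ 0 := by
    rw [h1]
    exact mul_ne_zero hpow hij'
  have hax : ax F x (i + j) = MvPolynomial.aeval (![ax F x i, 1] : Fin (1 + 1) → L) (H 0) /
      MvPolynomial.aeval (![ax F x i, 1] : Fin (1 + 1) → L) (H 1) := by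
    rw [h1, h1, mul_div_mul_left _ _ hpow]
    rfl
  simp only [eval_dh]
  refine ⟨hne, ?_, hax, ?_⟩
  · rw [h3]
    exact (map_ne_zero τ).mpr hne
  · rw [h3, h3, hax, map_div₀]

/-- the structure on the orbit of a wandering point -/
lemma exists_orb (hB : Bds F q A a) (hq : 2 ≤ q) (hF : ∀ i, (F i).IsHomogeneous q)
    {x : Fin (1 + 1) → L} (hx : x ≠ 0) (hw : Wnd F x) (τ : Gal(L/K)) :
    Orb (q ^ 2) (ax F x) (fun i => τ (ax F x i)) (JJ F x) := by
  have hX : ∀ i, (act F)^[i] x ≠ 0 := fun i => hB.iter_ne_zero hx i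
  refine ⟨?_, ?_, ?_⟩
  · intro i hi j hj hij
    by_contra hne
    have hi' : ((act F)^[i] x) 1 ≠ 0 := hi
    have hj' : ((act F)^[j] x) 1 ≠ 0 := hj
    refine hw ⟨i, j, hne, ((act F)^[j] x) 1 * (((act F)^[i] x) 1)⁻¹,
      mul_ne_zero hj' (inv_ne_zero hi'), ?_⟩
    have h1 := ax_vec hi
    have h2 := ax_vec hj
    rw [← hij, h1] at h2
    rw [mul_smul, h2, smul_smul, mul_inv_cancel₀ hj', one_smul]
  · intro i j hi hj
    by_contra hne
    have hi' : ((act F)^[i] x) 1 = 0 := by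
      by_contra h
      exact hi h
    have hj' : ((act F)^[j] x) 1 = 0 := by
      by_contra h
      exact hj h
    have hi0 : ((act F)^[i] x) 0 ≠ 0 := by
      intro h
      apply hX i
      funext t
      fin_cases t
      · exact h
      · exact hi'
    have hj0 : ((act F)^[j] x) 0 ≠ 0 := by
      intro h
      apply hX j
      funext t
      fin_cases t
      · exact h
      · exact hj'
    refine hw ⟨i, j, hne, ((act F)^[j] x) 0 * (((act F)^[i] x) 0)⁻¹,
      mul_ne_zero hj0 (inv_ne_zero hi0), ?_⟩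
    funext t
    fin_cases t
    · change ((act F)^[j] x) 0 = ((act F)^[j] x) 0 * (((act F)^[i] x) 0)⁻¹ * ((act F)^[i] x) 0
      rw [mul_assoc, inv_mul_cancel₀ hi0, mul_one]
    · change ((act F)^[j] x) 1 = ((act F)^[j] x) 0 * (((act F)^[i] x) 0)⁻¹ * ((act F)^[i] x) 1
      rw [hi', hj', mul_zero]
  · rintro j (rfl | rfl)
    · refine step_of hF (Nat.le_self_pow (by norm_num) q) (fun i => ?_) τ
      rw [Function.iterate_succ_apply']
    · have hH : ∀ i, (MvPolynomial.bind₁ F (F i)).IsHomogeneous (q ^ 2) := by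
        intro i
        have h1 := (hF i).aeval (R := K) F hF
        have h2 : q * q = q ^ 2 := by ring
        rw [h2] at h1
        exact h1
      refine step_of (H := fun i => MvPolynomial.bind₁ F (F i)) hH le_rfl (fun i => ?_) τ
      rw [show i + 2 = (i + 1) + 1 from rfl, Function.iterate_succ_apply',
        Function.iterate_succ_apply']
      funext t
      simp only [act, MvPolynomial.aeval_bind₁]
      rfl

lemma hgt_gal (τ : Gal(L/K)) (z : L) : Height.logHeight₁ (τ z) = Height.logHeight₁ z := by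
  have h1 := Pool.Agent.R829.DL.logHeight_hom (N := 1) (τ : L →+* L) ![z, 1]
  have hD := finrank_pos' (L := L)
  have h2 := mul_right_cancel₀ hD.ne' h1
  have h3 : (fun t => (τ : L →+* L) ((![z, 1] : Fin (1 + 1) → L) t)) = ![τ z, 1] := by
    funext t
    fin_cases t
    · rfl
    · exact map_one τ
  rw [h3] at h2
  rw [Height.logHeight₁_eq_logHeight, Height.logHeight₁_eq_logHeight]
  exact h2

lemma hgt_tendsto (hB : Bds F q A a) (hq : 2 ≤ q) {x : Fin (1 + 1) → L} (hx : x ≠ 0)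
    (hpos : 0 < canH F q x) (B : ℝ) :
    ∃ s, ∀ i ∈ JJ F x, s ≤ i → B < Height.logHeight₁ (ax F x i) := by
  have hD := finrank_pos' (L := L)
  have hq' : (1 : ℝ) < q := by exact_mod_cast (by omega : 1 < q)
  have h1 := (tendsto_pow_atTop_atTop_of_one_lt hq').eventually_gt_atTop
    ((B / finrank ℚ L + hC A a) / canH F q x)
  obtain ⟨s, hs⟩ := eventually_atTop.mp h1
  refine ⟨s, fun i hi hsi => ?_⟩
  have h2 := hs i hsi
  rw [div_lt_iff₀ hpos] at h2
  have hX := hB.iter_ne_zero hx i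
  have h3 := hB.abs_canH hq hX
  rw [hB.canH_iter hq hx, abs_le] at h3
  have h4 : B / finrank ℚ L < Height.logHeight ((act F)^[i] x) / finrank ℚ L := by
    linarith [h3.1]
  rw [div_lt_div_iff_of_pos_right hD] at h4
  have hi' : ((act F)^[i] x) 1 ≠ 0 := hi
  rw [Height.logHeight₁_eq_logHeight]
  have h5 : (![ax F x i, 1] : Fin 2 → L) = (((act F)^[i] x) 1)⁻¹ • (act F)^[i] x := ax_vec hi
  rw [h5, Height.logHeight_smul_eq_logHeight _ (inv_ne_zero hi')]
  exact h4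

/-- **the lower bound** -/
theorem core (hB : Bds F q A a) (hq : 2 ≤ q) (hF : ∀ i, (F i).IsHomogeneous q)
    (hc : ∀ m, c + q ≤ m → ∀ p : MvPolynomial (Fin (1 + 1)) K, p.IsHomogeneous m →
      p ∈ Ideal.span (Set.range F)) {N₀ : ℕ} (hN₀ : 2 ≤ N₀) {ω : ℝ} (hω : 0 < ω) :
    ∃ κ : ℝ, 0 < κ ∧ ∀ (L : Type) [Field L] [NumberField L] [Algebra K L] (τ : Gal(L/K))
      (T : Finset (FinitePlace L)), (∀ v ∈ T, GR v F q) → (∀ v ∈ T, FrobAt v τ N₀) →
      (finrank ℚ L : ℝ) * ω ≤ ∑ v ∈ T, Real.log (nv v) →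
      ∀ x : Fin (1 + 1) → L, x ≠ 0 → Wnd F x → 0 < canH F q x → κ ≤ canH F q x := by
  classical
  have hE : 0 ≤ hC A a * ((c + q : ℕ) : ℝ) := mul_nonneg hB.hC_nonneg (Nat.cast_nonneg _)
  obtain ⟨j, hj1, hj2, hj3⟩ := exists_par hω hE hN₀
  obtain ⟨Q, hQ⟩ : ∃ Q, Q = N₀ ^ j := ⟨_, rfl⟩
  obtain ⟨S, hS⟩ : ∃ S, S = j ^ 2 := ⟨_, rfl⟩
  rw [← hQ, ← hS] at hj1 hj3
  obtain ⟨M₀, c₀, hwin⟩ := window (q ^ 2) (8 * S) (Q * (8 * S))
  obtain ⟨t, ht⟩ : ∃ t, t = 8 * S * (Q + 1) + 1 := ⟨_, rfl⟩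
  have ht1 : 1 ≤ t := by omega
  have ht0 : (0 : ℝ) < t := by exact_mod_cast ht1
  obtain ⟨R₀, hR₀⟩ := exists_R0 (δ := ω / (32 * t)) (by positivity) hE
  obtain ⟨R₁, hR₁⟩ : ∃ R₁, R₁ = max R₀ (8 * t) + 1 := ⟨_, rfl⟩
  obtain ⟨m₁, hm₁⟩ : ∃ m₁, m₁ = max M₀ (c₀ * R₁ + 1) := ⟨_, rfl⟩
  obtain ⟨η, hη⟩ : ∃ η : ℝ, η = min (1 / (((Q * (8 * S) : ℕ) + (8 * S : ℕ) : ℝ) + 1))
    (ω / (32 * t)) := ⟨_, rfl⟩
  have hη0 : 0 < η := by
    rw [hη]
    apply lt_min <;> positivity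
  have hη1 : (((Q * (8 * S) : ℕ) + (8 * S : ℕ) : ℝ)) * η ≤ 1 := by
    have h1 : η ≤ 1 / (((Q * (8 * S) : ℕ) + (8 * S : ℕ) : ℝ) + 1) := hη ▸ min_le_left _ _
    rw [le_div_iff₀ (by positivity)] at h1
    nlinarith
  have hη2 : 32 * t * η ≤ ω := by
    have h1 : η ≤ ω / (32 * t) := hη ▸ min_le_right _ _
    rw [le_div_iff₀ (by positivity)] at h1
    linarith
  have hq0 : (0 : ℝ) < q := by
    have : 0 < q := by omega
    exact_mod_cast this
  refine ⟨η / q ^ m₁, by positivity, ?_⟩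
  intro L _ _ _ τ₀ T hT hfr₀ hωT x hx hw hpos
  by_contra hcon
  push Not at hcon
  rw [lt_div_iff₀ (by positivity)] at hcon
  obtain ⟨τ, hτ⟩ : ∃ τ, τ = τ₀ ^ j := ⟨_, rfl⟩
  have hfr : ∀ v ∈ T, FrobAt v τ Q := by
    intro v hv
    rw [hτ, hQ]
    exact (hfr₀ v hv).pow j
  have hsmall : ∀ i, i ∈ JJ F x → i < m₁ → canH F q ![ax F x i, 1] ≤ η := by
    intro i hi him
    have hi' : ((act F)^[i] x) 1 ≠ 0 := hi
    rw [ax_vec hi, canH_smul hF (inv_ne_zero hi'), hB.canH_iter hq hx]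
    have h1 : (q : ℝ) ^ i ≤ q ^ m₁ := by
      apply pow_le_pow_right₀ _ him.le
      exact_mod_cast (by omega : 1 ≤ q)
    have h2 := mul_le_mul_of_nonneg_right h1 hpos.le
    linarith
  have hO := exists_orb hB hq hF hx hw τ
  -- the first relation
  obtain ⟨G, hG0, hG1, hG2, hG3⟩ := step_zero hB hq hF hc
    (ι := {i // i ∈ (Finset.range m₁).filter fun i => i ∈ JJ F x}) T hT hfr hωT hω
    (fun i => ax F x i) (fun i => by
      obtain ⟨h1, h2⟩ := Finset.mem_filter.mp i.2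
      exact hsmall i h2 (Finset.mem_range.mp h1)) hη1 hj3
  -- the window
  have hII : ∀ T', TMin (ax F x) (fun i => τ (ax F x i)) (JJ F x) T' → XD T'.natDegree T' := by
    intro T' hT'
    exact deg_le hO (fun i _ => hgt_gal τ _) (fun B => hgt_tendsto hB hq hx hpos B) hT'
  obtain ⟨s', m', G', h1, h2, h3, h4, h5, h6, h7⟩ := hwin L _ _ _ hO hII 0 m₁
    (hm₁ ▸ le_max_left _ _) G hG0 hG1 hG2 (fun i hi _ him => by
      refine hG3 ⟨i, Finset.mem_filter.mpr ⟨Finset.mem_range.mpr ?_, hi⟩⟩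
      omega)
  have hm' : R₁ ≤ m' := by
    by_contra hlt
    push Not at hlt
    have h8 : c₀ * m' ≤ c₀ * R₁ := Nat.mul_le_mul_left _ hlt.le
    have h9 : c₀ * R₁ + 1 ≤ m₁ := hm₁ ▸ le_max_right _ _
    omega
  -- the number of the points
  set E := (Finset.Ico s' (s' + m')).filter fun i => i ∈ JJ F x with hE'
  have hcard : m' ≤ E.card + 1 := by
    have h8 : E.card + ((Finset.Ico s' (s' + m')).filter fun i => ¬ i ∈ JJ F x).card =
        (Finset.Ico s' (s' + m')).card := by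
      rw [hE']
      exact Finset.card_filter_add_card_filter_not (s := Finset.Ico s' (s' + m'))
        (fun i => i ∈ JJ F x)
    have h9 : ((Finset.Ico s' (s' + m')).filter fun i => ¬ i ∈ JJ F x).card ≤ 1 := by
      rw [Finset.card_le_one]
      intro i hi k hk
      exact hO.miss i k (Finset.mem_filter.mp hi).2 (Finset.mem_filter.mp hk).2
    rw [Nat.card_Ico] at h8
    omega
  have hι : Fintype.card {i // i ∈ E} = E.card := Fintype.card_coe E
  refine step_last hB hq hF hc (ι := {i // i ∈ E}) T hT hωT hω (fun i => ax F x i) ?_ ?_ ht1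
    hη0.le hη2 ?_ ?_ ?_
  · intro i k hik
    apply Subtype.ext
    exact hO.inj (Finset.mem_filter.mp i.2).2 (Finset.mem_filter.mp k.2).2 hik
  · intro i
    obtain ⟨h8, h9⟩ := Finset.mem_filter.mp i.2
    rw [Finset.mem_Ico] at h8
    exact hsmall i h9 (by omega)
  · intro v hv
    rw [ht]
    refine classes_rel (hfr v hv) hj1 h4 h5 h6 _ fun i => ?_
    obtain ⟨h8, h9⟩ := Finset.mem_filter.mp i.2
    rw [Finset.mem_Ico] at h8
    exact h7 i h9 h8.1 h8.2
  · rw [hι]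
    have := le_max_right R₀ (8 * t)
    omega
  · rw [hι]
    apply hR₀
    have := le_max_left R₀ (8 * t)
    omega

end

end Pool.Agent.R829.BG
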