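import Mathlib
import Pool.Agent.R829.BG.Orbs
import Pool.Agent.H627.LU.Fn

/-!
The lower bound over Galois extensions.
-/

set_option autoImplicit false
set_option linter.unusedSectionVars false

namespace Pool.Agent.R829.BG

open NumberField Module Filter Topology
open Pool.Agent.W238.Leh
open Pool.Agent.H627.LP hiding det_ineq det_ineq' local_gain
open Pool.Agent.H627.LR (GR GoodRed GoodK transfer_scale)
open Pool.Agent.H420R3 (mi nv TP ew lP lP_pos sum_ew ew_pos log_nv_pos)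

noncomputable section

variable {K : Type} [Field K] [NumberField K]

/-- **the theorem** for Galois extensions -/
theorem galois {d : ℕ} (hd : 2 ≤ d) (F : Fin (1 + 1) → MvPolynomial (Fin (1 + 1)) K)
    (hF : ∀ i, (F i).IsHomogeneous d) (v : FinitePlace K) (hred : GoodRed v F)
    {m : ℕ} (hm : 1 ≤ m) (B e : ℕ) :
    ∃ κ : ℝ, 0 < κ ∧ ∀ (L : Type) [Field L] [NumberField L] [Algebra K L] [IsGalois K L],
      (∀ σ : Gal(L/K), (Set.range fun g : Gal(L/K) => g * σ ^ m * g⁻¹).ncard ≤ B) →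
      (∀ 𝔓 : Ideal (𝓞 L), 𝔓.IsPrime → 𝔓.under (𝓞 K) = mi v → 𝔓.ramificationIdx (𝓞 K) ≤ e) →
      ∀ x : Fin (1 + 1) → L, x ≠ 0 → Wnd F x →
      ∃ h : ℝ, Tendsto (fun n : ℕ => Height.logHeight ((act F)^[n] x) /
          ((finrank ℚ L : ℝ) * (d : ℝ) ^ n)) atTop (𝓝 h) ∧ κ ≤ h := by
  obtain ⟨b, hb, hG⟩ := hred.exists_model hF
  have hP0 := H420R3.mi_ne_bot v
  set H : Fin (1 + 1) → MvPolynomial (Fin (1 + 1)) K := fun i => MvPolynomial.C (b : K) * F i
    with hH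
  have hmor := fun z => hG.mor z
  have hint : ∀ i s, IsIntegral ℤ ((H i).coeff s) := fun i s => by
    obtain ⟨c, hc⟩ := hG.int i s
    rw [hc]
    exact RingOfIntegers.isIntegral_coe c
  obtain ⟨A, a, hBd, C₁, hC₁, hconcl⟩ := final_int (ε := 1) (by omega) hG.hom hint hmor one_pos
  obtain ⟨c, hc⟩ := exists_mem_span hmor
  have hPn : 2 ≤ (mi v).absNorm := by
    have h1 := log_absNorm_pos (K := K) hP0
    by_contra h
    push Not at h
    interval_cases hh : (mi v).absNorm <;> simp at h1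
  have hlP := log_absNorm_pos (K := K) hP0
  have hKpos := finrank_pos' (L := K)
  obtain ⟨ω, hω⟩ : ∃ ω : ℝ, ω = Real.log (mi v).absNorm /
    ((max B 1 : ℕ) * (max e 1 : ℕ) * finrank ℚ K) := ⟨_, rfl⟩
  have hB1 : (0 : ℝ) < (max B 1 : ℕ) := by
    have : 0 < max B 1 := by omega
    exact_mod_cast this
  have he1 : (0 : ℝ) < (max e 1 : ℕ) := by
    have : 0 < max e 1 := by omega
    exact_mod_cast this
  have hω0 : 0 < ω := by
    rw [hω]
    positivity
  have hN₀ : 2 ≤ (mi v).absNorm ^ m := hPn.trans (Nat.le_self_pow (by omega) _)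
  obtain ⟨κ, hκ, hcore⟩ := core (c := c) hBd hd hG.hom (fun m hm p hp => hc m (by omega) p hp)
    hN₀ hω0
  refine ⟨κ, hκ, ?_⟩
  intro L _ _ _ _ hconj hram x hx hw
  obtain ⟨hw', hlim⟩ := transfer_scale hb hF hd hBd hx
  refine ⟨_, hlim, ?_⟩
  obtain ⟨τ, T, hTP, hτ, hTB⟩ := exists_few (K := K) (L := L) hP0 m B hconj
  have hpos : 0 < canH H d x := lt_of_lt_of_le (Real.exp_pos _) ((hconcl L).2 x hx (hw' hw))
  refine hcore L τ T (fun w hw => hG.gr hP0 (by omega) (hTP hw)) hτ ?_ x hx (hw' hw) hpos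
  -- the weights
  have h1 : ∀ w ∈ T, (((mi w).ramificationIdx (𝓞 K) * (mi w).inertiaDeg (𝓞 K) : ℕ) : ℝ) *
      Real.log (mi v).absNorm ≤ (max e 1 : ℕ) * Real.log (nv w) := by
    intro w hw
    have h2 := ew_eq (K := K) hP0 (hTP hw)
    have h3 : (((mi w).ramificationIdx (𝓞 K) * (mi w).inertiaDeg (𝓞 K) : ℕ) : ℝ) *
        Real.log (mi v).absNorm = ew K w := by
      rw [h2]
    rw [h3]
    unfold H420R3.ew
    apply mul_le_mul_of_nonneg_right _ (log_nv_pos w).le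
    have hlo := H420R3.liesOver_of_mem hP0 (hTP hw)
    have h4 := hram (mi w) inferInstance hlo.over.symm
    exact_mod_cast h4.trans (le_max_left _ _)
  have h2 := Finset.sum_le_sum h1
  rw [← Finset.sum_mul, ← Finset.mul_sum, ← Nat.cast_sum] at h2
  have h3 : ((finrank K L : ℕ) : ℝ) ≤ (max B 1 : ℕ) *
      ((∑ w ∈ T, (mi w).ramificationIdx (𝓞 K) * (mi w).inertiaDeg (𝓞 K) : ℕ) : ℝ) := by
    have h4 : finrank K L ≤ max B 1 *
        ∑ w ∈ T, (mi w).ramificationIdx (𝓞 K) * (mi w).inertiaDeg (𝓞 K) :=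
      hTB.trans (Nat.mul_le_mul_right _ (le_max_left _ _))
    exact_mod_cast h4
  have h4 : (finrank ℚ L : ℝ) = finrank ℚ K * finrank K L := by
    exact_mod_cast (finrank_mul_finrank ℚ K L).symm
  have h5 : (finrank ℚ L : ℝ) * ω = (finrank K L * Real.log (mi v).absNorm) /
      ((max B 1 : ℕ) * (max e 1 : ℕ)) := by
    rw [h4, hω]
    field_simp
  rw [h5, div_le_iff₀ (by positivity)]
  calc (finrank K L : ℝ) * Real.log (mi v).absNorm ≤ (max B 1 : ℕ) *
        ((∑ w ∈ T, (mi w).ramificationIdx (𝓞 K) * (mi w).inertiaDeg (𝓞 K) : ℕ) : ℝ) *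
        Real.log (mi v).absNorm := mul_le_mul_of_nonneg_right h3 hlP.le
    _ = (max B 1 : ℕ) *
        (((∑ w ∈ T, (mi w).ramificationIdx (𝓞 K) * (mi w).inertiaDeg (𝓞 K) : ℕ) : ℝ) *
        Real.log (mi v).absNorm) := by ring
    _ ≤ (max B 1 : ℕ) * ((max e 1 : ℕ) * ∑ w ∈ T, Real.log (nv w)) :=
        mul_le_mul_of_nonneg_left h2 hB1.le
    _ = _ := by ring

end

end Pool.Agent.R829.BG
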